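import Mathlib

/-!
# Hardy inequality, capacity and isocapacitary constant on locally finite trees
-/

set_option autoImplicit false

open MeasureTheory
open scoped ENNReal NNReal

namespace Pool.Agent.Lib.MP_a9eb04

/-- A locally finite tree (connected, no cycles, countable vertex set, all degrees finite) with a
root `o` and a pre-root `o*` that is adjacent to `o` only. -/
structure LFTree where
  /-- the vertices -/
  V : Type
  countable_V : Countable V
  /-- the graph -/
  G : SimpleGraph V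
  isTree : G.IsTree
  finite_degree : ∀ v, (G.neighborSet v).Finite
  /-- the root `o` -/
  root : V
  /-- the pre-root `o*` -/
  preRoot : V
  adj_preRoot : ∀ v, G.Adj preRoot v ↔ v = root

namespace LFTree

variable (T : LFTree)

/-- The edge set `E`. -/
def E : Type := {e : Sym2 T.V // e ∈ T.G.edgeSet}

/-- An infinite geodesic starting at `o*`. -/
structure Ray where
  /-- the vertices of the geodesic -/
  vert : ℕ → T.V
  vert_zero : vert 0 = T.preRoot
  geodesic : ∀ m n, m ≤ n → T.G.dist (vert m) (vert n) = n - m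

/-- The points of `T ∪ ∂T`: the vertices together with the infinite geodesics starting at `o*`
(a finite maximal geodesic is identified with the leaf at which it ends). -/
inductive Point
  | vertex (x : T.V) : Point
  | ray (γ : T.Ray) : Point

/-- The set `[o*, x]` of edges of the geodesic from `o*` to the point `x` of `T ∪ ∂T`. -/
def geo : T.Point → Set (Sym2 T.V)
  | .vertex x => {e | ∃ w : T.G.Walk T.preRoot x, w.IsPath ∧ e ∈ w.edges}
  | .ray γ => {e | ∃ n, e = s(γ.vert n, γ.vert (n + 1))}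

/-- The successor set `S(α) = {x ∈ T ∪ ∂T : α ∈ [o*, x]}`. -/
def S (α : T.E) : Set T.Point := {x | α.1 ∈ T.geo x}

/-- The topology on `T ∪ ∂T` generated by the sets `S(α)` and the vertex singletons. -/
instance : TopologicalSpace T.Point :=
  TopologicalSpace.generateFrom (Set.range T.S ∪ Set.range fun x : T.V => {Point.vertex x})

/-- The Borel `σ`-algebra on `T ∪ ∂T`. -/
instance : MeasurableSpace T.Point := borel T.Point

/-- The Hardy operator `I φ (x) = ∑_{α ∈ [o*, x]} φ(α)`. -/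
noncomputable def hardyOp (φ : T.E → ℝ≥0) (x : T.Point) : ℝ≥0∞ :=
  ∑' α : {α : T.E | α.1 ∈ T.geo x}, (φ α.1 : ℝ≥0∞)

/-- The energy `∑_{α ∈ E} φ(α)^p π(α)`. -/
noncomputable def energy (p : ℝ) (π φ : T.E → ℝ≥0) : ℝ≥0∞ :=
  ∑' α : T.E, (φ α : ℝ≥0∞) ^ p * π α

/-- `[μ]`, the smallest constant in the Hardy inequality `∫ (I φ)^p dμ ≤ [μ] ∑ φ^p π`. -/
noncomputable def hardyConst (p : ℝ) (π : T.E → ℝ≥0) (μ : Measure T.Point) : ℝ≥0∞ :=
  sInf {C : ℝ≥0∞ | ∀ φ : T.E → ℝ≥0, ∫⁻ x, T.hardyOp φ x ^ p ∂μ ≤ C * T.energy p π φ}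

/-- The capacity `Cap_{p,π}(A) = inf {∑ φ^p π : φ ≥ 0, I φ ≥ 1 on A}`. -/
noncomputable def capacity (p : ℝ) (π : T.E → ℝ≥0) (A : Set T.Point) : ℝ≥0∞ :=
  ⨅ (φ : T.E → ℝ≥0) (_ : ∀ x ∈ A, 1 ≤ T.hardyOp φ x), T.energy p π φ

/-- The isocapacitary constant `[[μ]]_c`: the supremum of
`(∑ μ(S(α_i))) / Cap_{p,π}(⋃ S(α_i))` over all `n ≥ 1` and all `α_1, …, α_n ∈ E` with pairwise
disjoint successor sets `S(α_i)`. -/
noncomputable def isoConst (p : ℝ) (π : T.E → ℝ≥0) (μ : Measure T.Point) : ℝ≥0∞ :=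
  ⨆ (n : ℕ) (_ : 1 ≤ n) (α : Fin n → T.E)
    (_ : Pairwise fun i j => Disjoint (T.S (α i)) (T.S (α j))),
    (∑ i, μ (T.S (α i))) / T.capacity p π (⋃ i, T.S (α i))

end LFTree

end Pool.Agent.Lib.MP_a9eb04
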