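import Mathlib

/-!
# The one-dimensional inequality behind the capacitary estimate
-/

set_option autoImplicit false

open MeasureTheory Set
open scoped ENNReal NNReal

namespace Pool.Agent.Lib.MP_a9eb04

/-- The cut-off profile `(min r t / t)^{p/(p-1)}`. -/
noncomputable def lam (p t r : ℝ) : ℝ := (min r t / t) ^ (p / (p - 1))

/-- The sharp constant `p^p / (p-1)^{p-1}`. -/
noncomputable def sharpK (p : ℝ) : ℝ := p ^ p / (p - 1) ^ (p - 1)

section
variable {p : ℝ}

lemma q_gt_one (hp : 1 < p) : 1 < p / (p - 1) := by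
  rw [lt_div_iff₀ (by linarith)]; linarith

lemma sharpK_pos (hp : 1 < p) : 0 < sharpK p := by
  unfold sharpK
  have : 0 < p - 1 := by linarith
  positivity

lemma sharpK_eq (hp : 1 < p) : sharpK p = p * (p / (p - 1)) ^ (p - 1) := by
  unfold sharpK
  have h1 : 0 < p - 1 := by linarith
  have h0 : 0 < p := by linarith
  rw [Real.div_rpow h0.le h1.le]
  have h2 : p ^ p = p * p ^ (p - 1) := by
    have := Real.rpow_add h0 1 (p - 1)
    rw [Real.rpow_one] at this
    rw [← this]; congr 1; ring
  rw [h2]; ring

lemma lam_nonneg {t r : ℝ} (ht : 0 < t) (hr : 0 ≤ r) : 0 ≤ lam p t r := by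
  unfold lam
  have : 0 ≤ min r t := le_min hr ht.le
  positivity

lemma lam_mono (hp : 1 < p) {t r s : ℝ} (ht : 0 < t) (hr : 0 ≤ r) (hrs : r ≤ s) :
    lam p t r ≤ lam p t s := by
  unfold lam
  have h0 : 0 ≤ min r t := le_min hr ht.le
  have h1 : min r t ≤ min s t := min_le_min_right t hrs
  have hq := q_gt_one hp
  apply Real.rpow_le_rpow (by positivity) _ (by linarith)
  gcongr

lemma lam_zero (hp : 1 < p) {t : ℝ} (ht : 0 < t) : lam p t 0 = 0 := by
  unfold lam
  have hq := q_gt_one hp
  rw [min_eq_left ht.le, zero_div, Real.zero_rpow (by linarith)]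

lemma lam_one {t r : ℝ} (ht : 0 < t) (htr : t ≤ r) : lam p t r = 1 := by
  unfold lam
  rw [min_eq_right htr, div_self ht.ne', Real.one_rpow]

/-- power mean-value inequality -/
lemma rpow_sub_le {q a s : ℝ} (hq : 1 < q) (ha : 0 ≤ a) (hs : 0 < s) :
    s ^ q - a ^ q ≤ q * s ^ (q - 1) * (s - a) := by
  -- Bernoulli: (a/s)^q ≥ 1 + q (a/s - 1)
  have h1 : 1 + q * (a / s - 1) ≤ (1 + (a / s - 1)) ^ q := by
    apply one_add_mul_self_le_rpow_one_add
    · have : 0 ≤ a / s := by positivity
      linarith
    · exact hq.le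
  have h2 : (1 + (a / s - 1)) = a / s := by ring
  rw [h2, Real.div_rpow ha hs.le] at h1
  have h3 : 0 < s ^ q := Real.rpow_pos_of_pos hs q
  rw [le_div_iff₀ h3] at h1
  have h4 : s ^ q = s ^ (q - 1) * s := by
    have := Real.rpow_add hs (q - 1) 1
    rw [Real.rpow_one] at this
    rw [← this]; congr 1; ring
  have h5 : (1 + q * (a / s - 1)) * s ^ q = s ^ q - q * s ^ (q - 1) * (s - a) := by
    have h6 : (a / s - 1) * s = a - s := by field_simp
    calc (1 + q * (a / s - 1)) * s ^ q = s ^ q + q * ((a / s - 1) * s ^ q) := by ring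
      _ = s ^ q + q * (s ^ (q - 1) * ((a / s - 1) * s)) := by
        nth_rewrite 2 [h4]; ring
      _ = s ^ q + q * (s ^ (q - 1) * (a - s)) := by rw [h6]
      _ = s ^ q - q * s ^ (q - 1) * (s - a) := by ring
  rw [h5] at h1
  linarith

/-- derivative of `(s^q - a^q)^p` -/
noncomputable def gder (p q a s : ℝ) : ℝ := p * (s ^ q - a ^ q) ^ (p - 1) * (q * s ^ (q - 1))

lemma gder_nonneg {q a s : ℝ} (hp : 1 < p) (hq : 1 < q) (ha : 0 ≤ a) (has : a ≤ s) :
    0 ≤ gder p q a s := by
  unfold gder
  have h1 : a ^ q ≤ s ^ q := Real.rpow_le_rpow ha has (by linarith)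
  have h2 : 0 ≤ s := ha.trans has
  have h3 : 0 ≤ s ^ q - a ^ q := by linarith
  positivity

lemma gder_cont {q a : ℝ} (hp : 1 < p) (hq : 1 < q) : Continuous (gder p q a) := by
  unfold gder
  have h1 : Continuous fun s : ℝ => s ^ q := by
    apply Continuous.rpow_const continuous_id
    intro x; right; linarith
  have h2 : Continuous fun s : ℝ => s ^ (q - 1) := by
    apply Continuous.rpow_const continuous_id
    intro x; right; linarith
  have h3 : Continuous fun s : ℝ => (s ^ q - a ^ q) ^ (p - 1) := by
    apply Continuous.rpow_const (h1.sub continuous_const)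
    intro x; right; linarith
  exact (continuous_const.mul h3).mul (continuous_const.mul h2)

lemma ftc {q a b : ℝ} (hp : 1 < p) (hq : 1 < q) (ha : 0 ≤ a) (hab : a ≤ b) :
    ENNReal.ofReal ((b ^ q - a ^ q) ^ p) =
      ∫⁻ s in Ioc a b, ENNReal.ofReal (gder p q a s) := by
  have hcont : ContinuousOn (fun s : ℝ => (s ^ q - a ^ q) ^ p) (Icc a b) := by
    apply Continuous.continuousOn
    have h1 : Continuous fun s : ℝ => s ^ q := by
      apply Continuous.rpow_const continuous_id
      intro x; right; linarith
    apply Continuous.rpow_const (h1.sub continuous_const)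
    intro x; right; linarith
  have hderiv : ∀ x ∈ Ioo a b, HasDerivAt (fun s : ℝ => (s ^ q - a ^ q) ^ p) (gder p q a x) x := by
    intro x hx
    have hx0 : 0 < x := lt_of_le_of_lt ha hx.1
    have h1 : HasDerivAt (fun s : ℝ => s ^ q) (q * x ^ (q - 1)) x :=
      Real.hasDerivAt_rpow_const (Or.inl hx0.ne')
    have h2 : HasDerivAt (fun s : ℝ => s ^ q - a ^ q) (q * x ^ (q - 1)) x := h1.sub_const _
    have h3 : 0 < x ^ q - a ^ q := by
      have := Real.rpow_lt_rpow ha hx.1 (by linarith : 0 < q)
      linarith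
    have h4 := h2.rpow_const (p := p) (Or.inl h3.ne')
    convert h4 using 1
    unfold gder; ring
  have hint : IntervalIntegrable (gder p q a) volume a b := (gder_cont hp hq).intervalIntegrable _ _
  have h1 := intervalIntegral.integral_eq_sub_of_hasDerivAt_of_le hab hcont hderiv hint
  have h2 : (a ^ q - a ^ q : ℝ) ^ p = 0 := by
    rw [sub_self, Real.zero_rpow (by linarith)]
  simp only [h2, sub_zero] at h1
  rw [← h1, intervalIntegral.integral_of_le hab, ofReal_integral_eq_lintegral_ofReal]
  · exact hint.1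
  · filter_upwards [ae_restrict_mem measurableSet_Ioc] with s hs
    exact gder_nonneg hp hq ha hs.1.le

/-- tail integral of the power weight -/
lemma tail_int {q s : ℝ} (hp : 1 < p) (hq : 0 < q) (hs : 0 < s) :
    ∫⁻ t in Ioi s, ENNReal.ofReal (p * t ^ (-1 - q)) = ENNReal.ofReal (p / q * s ^ (-q)) := by
  have h1 : -1 - q < -1 := by linarith
  have h2 := integral_Ioi_rpow_of_lt h1 hs
  have h3 := integrableOn_Ioi_rpow_of_lt h1 hs
  rw [← ofReal_integral_eq_lintegral_ofReal (h3.const_mul p)]
  · rw [integral_const_mul, h2]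
    congr 1
    have : -1 - q + 1 = -q := by ring
    rw [this]
    field_simp
  · filter_upwards [ae_restrict_mem measurableSet_Ioi] with t ht
    have : 0 < t := hs.trans ht
    positivity

lemma edge_rewrite {a b t : ℝ} (hp : 1 < p) (ha : 0 ≤ a) (hab : a ≤ b) (ht : 0 < t) :
    ENNReal.ofReal (p * t ^ (p - 1)) * ENNReal.ofReal (lam p t b - lam p t a) ^ p =
      ∫⁻ s in Ioc a b, (Iio t).indicator (fun s => ENNReal.ofReal (gder p (p / (p - 1)) a s)) s *
        ENNReal.ofReal (p * t ^ (-1 - p / (p - 1))) := by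
  set q := p / (p - 1) with hqdef
  have hq : 1 < q := q_gt_one hp
  have hp1 : 0 < p - 1 := by linarith
  have hp0 : 0 < p := by linarith
  rw [lintegral_mul_const', ]
  swap
  · exact ENNReal.ofReal_ne_top
  rw [lintegral_indicator measurableSet_Iio, Measure.restrict_restrict measurableSet_Iio]
  have hset : (Iio t ∩ Ioc a b : Set ℝ) =ᵐ[volume] (Ioc a (min b t) : Set ℝ) := by
    have h1 : (Iio t ∩ Ioc a b : Set ℝ) = Ioc a b ∩ Iio t := inter_comm _ _
    have h2 : (Ioc a (min b t) : Set ℝ) = Ioc a b ∩ Iic t := by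
      ext x; simp
    rw [h1, h2]
    exact (ae_eq_refl _).inter Iio_ae_eq_Iic
  rw [Measure.restrict_congr_set hset]
  rcases le_total t a with hta | hta
  · -- both sides zero
    have h1 : lam p t b = 1 := lam_one ht (hta.trans hab)
    have h2 : lam p t a = 1 := lam_one ht hta
    have h3 : Ioc a (min b t) = ∅ := by
      apply Ioc_eq_empty
      rw [not_lt]
      exact (min_le_right _ _).trans hta
    rw [h1, h2, h3, sub_self, ENNReal.ofReal_zero, ENNReal.zero_rpow_of_pos hp0]
    simp
  · have hm : a ≤ min b t := le_min hab hta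
    rw [← ftc hp hq ha hm]
    have h1 : lam p t b - lam p t a = t ^ (-q) * ((min b t) ^ q - a ^ q) := by
      unfold lam
      rw [← hqdef, min_eq_left hta, Real.div_rpow (le_min (ha.trans hab) ht.le) ht.le,
        Real.div_rpow ha ht.le, Real.rpow_neg ht.le]
      field_simp
    have h2 : 0 ≤ (min b t) ^ q - a ^ q := by
      have := Real.rpow_le_rpow ha hm (by linarith : 0 ≤ q)
      linarith
    have h3 : 0 ≤ t ^ (-q) := (Real.rpow_pos_of_pos ht _).le
    rw [h1, ENNReal.ofReal_rpow_of_nonneg (by positivity) hp0.le,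
      ← ENNReal.ofReal_mul (by positivity), ← ENNReal.ofReal_mul (by positivity)]
    congr 1
    rw [Real.mul_rpow h3 h2, ← Real.rpow_mul ht.le]
    have h4 : t ^ (p - 1) * t ^ (-q * p) = t ^ (-1 - q) := by
      rw [← Real.rpow_add ht]
      congr 1
      rw [hqdef]
      field_simp
      ring
    calc p * t ^ (p - 1) * (t ^ (-q * p) * ((min b t) ^ q - a ^ q) ^ p)
        = p * (t ^ (p - 1) * t ^ (-q * p)) * ((min b t) ^ q - a ^ q) ^ p := by ring
      _ = ((min b t) ^ q - a ^ q) ^ p * (p * t ^ (-1 - q)) := by rw [h4]; ring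

/-- **The per-edge inequality.** -/
theorem edge_ineq {a b : ℝ} (hp : 1 < p) (ha : 0 ≤ a) (hab : a ≤ b) :
    ∫⁻ t in Ioi (0 : ℝ), ENNReal.ofReal (p * t ^ (p - 1)) *
      ENNReal.ofReal (lam p t b - lam p t a) ^ p ≤
        ENNReal.ofReal (sharpK p * (b - a) ^ p) := by
  set q := p / (p - 1) with hqdef
  have hq : 1 < q := q_gt_one hp
  have hp1 : 0 < p - 1 := by linarith
  have hp0 : 0 < p := by linarith
  have h1 : ∫⁻ t in Ioi (0 : ℝ), ENNReal.ofReal (p * t ^ (p - 1)) *
      ENNReal.ofReal (lam p t b - lam p t a) ^ p =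
      ∫⁻ t in Ioi (0 : ℝ), ∫⁻ s in Ioc a b,
        (Iio t).indicator (fun s => ENNReal.ofReal (gder p q a s)) s *
        ENNReal.ofReal (p * t ^ (-1 - q)) :=
    setLIntegral_congr_fun measurableSet_Ioi fun t ht => edge_rewrite hp ha hab ht
  rw [h1, lintegral_lintegral_swap]
  · have h2 : ∀ s ∈ Ioc a b, ∫⁻ t in Ioi (0 : ℝ),
        (Iio t).indicator (fun s => ENNReal.ofReal (gder p q a s)) s *
        ENNReal.ofReal (p * t ^ (-1 - q)) ≤
          ENNReal.ofReal (p * (p * q ^ (p - 1) * (s - a) ^ (p - 1))) := by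
      intro s hs
      have hs0 : 0 < s := lt_of_le_of_lt ha hs.1
      have h3 : ∫⁻ t in Ioi (0 : ℝ), (Iio t).indicator (fun s => ENNReal.ofReal (gder p q a s)) s *
          ENNReal.ofReal (p * t ^ (-1 - q)) =
          ∫⁻ t in Ioi s, ENNReal.ofReal (gder p q a s) * ENNReal.ofReal (p * t ^ (-1 - q)) := by
        have h4 : ∀ t, (Iio t).indicator (fun s => ENNReal.ofReal (gder p q a s)) s *
            ENNReal.ofReal (p * t ^ (-1 - q)) = (Ioi s).indicator
              (fun t => ENNReal.ofReal (gder p q a s) * ENNReal.ofReal (p * t ^ (-1 - q))) t := by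
          intro t
          by_cases hst : s < t
          · rw [indicator_of_mem (show s ∈ Iio t from hst), indicator_of_mem (show t ∈ Ioi s from hst)]
          · rw [indicator_of_notMem (show s ∉ Iio t from hst), zero_mul,
              indicator_of_notMem (show t ∉ Ioi s from hst)]
        simp only [h4]
        rw [lintegral_indicator measurableSet_Ioi, Measure.restrict_restrict measurableSet_Ioi]
        congr 2
        ext x
        simp only [mem_inter_iff, mem_Ioi]
        constructor
        · exact fun h => h.1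
        · exact fun h => ⟨h, hs0.trans h⟩
      rw [h3, lintegral_const_mul' _ _ ENNReal.ofReal_ne_top, tail_int hp (by linarith) hs0,
        ← ENNReal.ofReal_mul (gder_nonneg hp hq ha hs.1.le)]
      apply ENNReal.ofReal_le_ofReal
      unfold gder
      have h5 : 0 ≤ s ^ q - a ^ q := by
        have := Real.rpow_le_rpow ha hs.1.le (by linarith : 0 ≤ q)
        linarith
      have h6 : (s ^ q - a ^ q) ^ (p - 1) ≤ (q * s ^ (q - 1) * (s - a)) ^ (p - 1) :=
        Real.rpow_le_rpow h5 (rpow_sub_le hq ha hs0) hp1.le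
      have hsa : 0 ≤ s - a := by linarith [hs.1]
      have h7 : (q * s ^ (q - 1) * (s - a)) ^ (p - 1) =
          q ^ (p - 1) * s * (s - a) ^ (p - 1) := by
        rw [Real.mul_rpow (by positivity) hsa, Real.mul_rpow (by positivity) (by positivity),
          ← Real.rpow_mul hs0.le]
        have : (q - 1) * (p - 1) = 1 := by
          rw [hqdef]; field_simp; ring
        rw [this, Real.rpow_one]
      rw [h7] at h6
      have h8 : s ^ (q - 1) * s ^ (-q) * s = 1 := by
        have e1 : s ^ (q - 1) * s ^ (-q) * s = s ^ (q - 1) * s ^ (-q) * s ^ (1 : ℝ) := by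
          rw [Real.rpow_one]
        rw [e1, ← Real.rpow_add hs0, ← Real.rpow_add hs0]
        have : q - 1 + -q + 1 = 0 := by ring
        rw [this, Real.rpow_zero]
      calc p * (s ^ q - a ^ q) ^ (p - 1) * (q * s ^ (q - 1)) * (p / q * s ^ (-q))
          = (s ^ q - a ^ q) ^ (p - 1) * (p * p * (s ^ (q - 1) * s ^ (-q))) := by
            have : q ≠ 0 := by linarith
            field_simp
        _ ≤ (q ^ (p - 1) * s * (s - a) ^ (p - 1)) * (p * p * (s ^ (q - 1) * s ^ (-q))) := by
            apply mul_le_mul_of_nonneg_right h6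
            positivity
        _ = p * (p * q ^ (p - 1) * (s - a) ^ (p - 1)) * (s ^ (q - 1) * s ^ (-q) * s) := by ring
        _ = p * (p * q ^ (p - 1) * (s - a) ^ (p - 1)) := by rw [h8, mul_one]
    calc ∫⁻ s in Ioc a b, ∫⁻ t in Ioi (0 : ℝ),
          (Iio t).indicator (fun s => ENNReal.ofReal (gder p q a s)) s *
          ENNReal.ofReal (p * t ^ (-1 - q))
        ≤ ∫⁻ s in Ioc a b, ENNReal.ofReal (p * (p * q ^ (p - 1) * (s - a) ^ (p - 1))) :=
          setLIntegral_mono' measurableSet_Ioc h2
      _ = ENNReal.ofReal (sharpK p * (b - a) ^ p) := by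
          have hF : ∫ s in a..b, p * (p * q ^ (p - 1) * (s - a) ^ (p - 1)) =
              sharpK p * (b - a) ^ p := by
            have h9 : ∀ s, p * (p * q ^ (p - 1) * (s - a) ^ (p - 1)) =
                (p * p * q ^ (p - 1)) * (s - a) ^ (p - 1) := fun s => by ring
            simp only [h9]
            rw [intervalIntegral.integral_const_mul,
              intervalIntegral.integral_comp_sub_right (fun x => x ^ (p - 1)) a,
              integral_rpow (Or.inl (by linarith)), sub_self, sub_add_cancel,
              Real.zero_rpow hp0.ne', sharpK_eq hp]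
            field_simp
            ring
          rw [← hF, intervalIntegral.integral_of_le hab, ofReal_integral_eq_lintegral_ofReal]
          · have hc : Continuous fun s : ℝ => p * (p * q ^ (p - 1) * (s - a) ^ (p - 1)) := by
              have : Continuous fun s : ℝ => (s - a) ^ (p - 1) := by
                apply Continuous.rpow_const (continuous_id.sub continuous_const)
                intro x; right; linarith
              exact continuous_const.mul (continuous_const.mul this)
            exact (hc.intervalIntegrable a b).1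
          · filter_upwards [ae_restrict_mem measurableSet_Ioc] with s hs
            have hsa : 0 ≤ s - a := by linarith [hs.1]
            positivity
  · -- measurability
    apply Measurable.aemeasurable
    unfold Function.uncurry
    apply Measurable.mul
    · have h5 : (fun z : ℝ × ℝ => (Iio z.1).indicator
          (fun s => ENNReal.ofReal (gder p q a s)) z.2) =
          {z : ℝ × ℝ | z.2 < z.1}.indicator (fun z => ENNReal.ofReal (gder p q a z.2)) := by
        funext z
        by_cases hz : z.2 < z.1
        · rw [indicator_of_mem (show z.2 ∈ Iio z.1 from hz),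
            indicator_of_mem (show z ∈ {z : ℝ × ℝ | z.2 < z.1} from hz)]
        · rw [indicator_of_notMem (show z.2 ∉ Iio z.1 from hz),
            indicator_of_notMem (show z ∉ {z : ℝ × ℝ | z.2 < z.1} from hz)]
      rw [h5]
      apply Measurable.indicator
      · exact ((gder_cont hp hq).measurable.comp measurable_snd).ennreal_ofReal
      · exact measurableSet_lt measurable_snd measurable_fst
    · exact ((measurable_fst.pow_const _).const_mul p).ennreal_ofReal

end

end Pool.Agent.Lib.MP_a9eb04
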