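import Pool.Agent.Lib.MP_a9eb04.Tree

/-!
# The half-line: sharpness of the constant
-/

set_option autoImplicit false

open MeasureTheory
open scoped ENNReal NNReal

namespace Pool.Agent.Lib.MP_a9eb04

/-- the half-line graph on `ℕ` -/
def lineG : SimpleGraph ℕ where
  Adj a b := a + 1 = b ∨ b + 1 = a
  symm := ⟨fun _ _ h => h.symm⟩
  loopless := ⟨fun a h => by omega⟩

lemma lineG_adj {a b : ℕ} : lineG.Adj a b ↔ a + 1 = b ∨ b + 1 = a := Iff.rfl

lemma adj_succ (n : ℕ) : lineG.Adj n (n + 1) := Or.inl rfl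

/-- the walk from `0` to `n` -/
def upw : (n : ℕ) → lineG.Walk 0 n
  | 0 => .nil
  | n + 1 => (upw n).concat (adj_succ n)

lemma upw_support (n : ℕ) : ∀ m ∈ (upw n).support, m ≤ n := by
  induction n with
  | zero => intro m hm; simpa [upw] using hm
  | succ n ih =>
    intro m hm
    rw [upw, SimpleGraph.Walk.support_concat, List.mem_append] at hm
    rcases hm with hm | hm
    · exact (ih m hm).trans (Nat.le_succ n)
    · rw [List.mem_singleton] at hm; omega

lemma upw_isPath (n : ℕ) : (upw n).IsPath := by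
  induction n with
  | zero => exact SimpleGraph.Walk.IsPath.nil
  | succ n ih =>
    rw [upw]
    refine ih.concat ?_ _
    intro h
    have := upw_support n _ h
    omega

lemma upw_edges (n : ℕ) (e : Sym2 ℕ) : e ∈ (upw n).edges ↔ ∃ i, i < n ∧ e = s(i, i + 1) := by
  induction n with
  | zero => simp [upw]
  | succ n ih =>
    rw [upw, SimpleGraph.Walk.edges_concat, List.concat_eq_append, List.mem_append, ih,
      List.mem_singleton]
    constructor
    · rintro (⟨i, hi, he⟩ | he)
      · exact ⟨i, by omega, he⟩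
      · exact ⟨n, by omega, he⟩
    · rintro ⟨i, hi, he⟩
      by_cases h : i < n
      · exact Or.inl ⟨i, h, he⟩
      · have : i = n := by omega
        subst this
        exact Or.inr he

lemma line_connected : lineG.Connected := by
  rw [SimpleGraph.connected_iff_exists_forall_reachable]
  exact ⟨0, fun n => (upw n).reachable⟩

lemma line_bridge (n : ℕ) : lineG.IsBridge s(n, n + 1) := by
  rw [SimpleGraph.isBridge_iff]
  rintro ⟨w⟩
  have key : ∀ {u v : ℕ} (_ : (lineG.deleteEdges {s(n, n + 1)}).Walk u v), u ≤ n → v ≤ n := by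
    intro u v w
    induction w with
    | nil => exact id
    | cons h _ ih =>
      intro hu
      apply ih
      rw [SimpleGraph.deleteEdges_adj, lineG_adj] at h
      obtain ⟨h1, h2⟩ := h
      rcases h1 with h1 | h1
      · by_contra hcon
        push Not at hcon
        apply h2
        rw [Set.mem_singleton_iff, Sym2.eq_iff]
        left
        constructor <;> omega
      · omega
  have := key w le_rfl
  omega

lemma line_isTree : lineG.IsTree := by
  refine ⟨line_connected, ?_⟩
  rw [SimpleGraph.isAcyclic_iff_forall_adj_isBridge]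
  intro v w h
  rcases h with h | h
  · subst h; exact line_bridge v
  · subst h; rw [Sym2.eq_swap]; exact line_bridge w

/-- the half-line as a rooted tree -/
abbrev line : LFTree where
  V := ℕ
  countable_V := inferInstance
  G := lineG
  isTree := line_isTree
  finite_degree v := by
    refine (Set.finite_Iic (v + 1)).subset ?_
    intro w hw
    have : v + 1 = w ∨ w + 1 = v := hw
    rw [Set.mem_Iic]
    omega
  root := 1
  preRoot := 0
  adj_preRoot v := by
    rw [lineG_adj]
    constructor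
    · rintro (h | h)
      · omega
      · omega
    · intro h; left; omega

/-- the `i`-th edge -/
def edg (i : ℕ) : line.E := ⟨s(i, i + 1), Or.inl rfl⟩

lemma edg_inj : Function.Injective edg := by
  intro i j h
  have h1 : (s(i, i + 1) : Sym2 ℕ) = s(j, j + 1) := congrArg Subtype.val h
  rw [Sym2.eq_iff] at h1
  omega

lemma edg_surj : Function.Surjective edg := by
  rintro ⟨e, he⟩
  induction e using Sym2.ind with
  | _ a b =>
    have he' : a + 1 = b ∨ b + 1 = a := he
    rcases he' with h | h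
    · subst h; exact ⟨a, rfl⟩
    · subst h; exact ⟨b, Subtype.ext Sym2.eq_swap⟩

/-- enumeration of the edges -/
noncomputable def edgEquiv : ℕ ≃ line.E := Equiv.ofBijective edg ⟨edg_inj, edg_surj⟩

lemma edgEquiv_apply (i : ℕ) : edgEquiv i = edg i := rfl

/-- the vertices as points -/
def pv (m : ℕ) : line.Point := LFTree.Point.vertex (T := line) m

lemma mem_S_line (i m : ℕ) : pv m ∈ line.S (edg i) ↔ i < m := by
  unfold pv
  rw [LFTree.mem_S, LFTree.mem_geo_vertex]
  have h1 : line.P m = upw m := (LFTree.P_unique (T := line) (upw m) (upw_isPath m)).symm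
  rw [h1]
  rw [show (edg i).1 = s(i, i + 1) from rfl, upw_edges]
  constructor
  · rintro ⟨j, hj, he⟩
    have : edg i = edg j := Subtype.ext he
    rw [edg_inj this]; exact hj
  · intro h; exact ⟨i, h, rfl⟩

lemma hardyOp_line (φ : line.E → ℝ≥0) (m : ℕ) :
    line.hardyOp φ (pv m) = ∑ i ∈ Finset.range m, (φ (edg i) : ℝ≥0∞) := by
  rw [LFTree.hardyOp_eq]
  unfold opI
  rw [← edgEquiv.tsum_eq, tsum_eq_sum (s := Finset.range m)]
  · refine Finset.sum_congr rfl fun i hi => ?_
    rw [Set.indicator_of_mem]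
    · rfl
    · exact (mem_S_line i m).2 (Finset.mem_range.1 hi)
  · intro i hi
    rw [Set.indicator_of_notMem]
    intro h
    exact hi (Finset.mem_range.2 ((mem_S_line i m).1 h))

lemma energy_line (p : ℝ) (φ : line.E → ℝ≥0) :
    line.energy p (fun _ => 1) φ = ∑' i, (φ (edg i) : ℝ≥0∞) ^ p := by
  unfold LFTree.energy
  rw [← edgEquiv.tsum_eq]
  refine tsum_congr fun i => ?_
  rw [ENNReal.coe_one, mul_one]; rfl

/-- weights of the measure -/
noncomputable def wt (p : ℝ) (m : ℕ) : ℝ := ((m : ℝ) + 1) ^ (1 - p) - ((m : ℝ) + 2) ^ (1 - p)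

/-- the measure -/
noncomputable def mu (p : ℝ) : Measure line.Point :=
  Measure.sum fun m : ℕ => ENNReal.ofReal (wt p m) • Measure.dirac (pv (m + 1))

section
variable {p : ℝ}

lemma wt_nonneg (hp : 1 < p) (m : ℕ) : 0 ≤ wt p m := by
  unfold wt
  have h1 : ((m : ℝ) + 2) ^ (1 - p) ≤ ((m : ℝ) + 1) ^ (1 - p) := by
    apply Real.rpow_le_rpow_of_nonpos (by positivity) (by linarith) (by linarith)
  linarith

lemma mu_S (i : ℕ) : mu p (line.S (edg i)) =
    ∑' m : ℕ, if i ≤ m then ENNReal.ofReal (wt p m) else 0 := by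
  unfold mu
  rw [Measure.sum_apply _ (LFTree.S_measurable _)]
  refine tsum_congr fun m => ?_
  rw [Measure.smul_apply, Measure.dirac_apply' _ (LFTree.S_measurable _), smul_eq_mul]
  by_cases h : i ≤ m
  · rw [if_pos h, Set.indicator_of_mem ((mem_S_line i (m + 1)).2 (by omega))]
    simp
  · rw [if_neg h, Set.indicator_of_notMem]
    · simp
    · intro h2; have := (mem_S_line i (m + 1)).1 h2; omega

lemma sum_wt (i n : ℕ) (hin : i ≤ n) : ∑ m ∈ Finset.range n, (if i ≤ m then wt p m else 0) =
    ((i : ℝ) + 1) ^ (1 - p) - ((n : ℝ) + 1) ^ (1 - p) := by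
  induction n, hin using Nat.le_induction with
  | base =>
    rw [sub_self]
    refine Finset.sum_eq_zero fun m hm => ?_
    rw [if_neg]
    have := Finset.mem_range.1 hm
    omega
  | succ n hin ih =>
    rw [Finset.sum_range_succ, ih, if_pos hin]
    unfold wt
    push_cast
    ring_nf

lemma mu_S_le (hp : 1 < p) (i : ℕ) :
    mu p (line.S (edg i)) ≤ ENNReal.ofReal (((i : ℝ) + 1) ^ (1 - p)) := by
  rw [mu_S]
  refine ENNReal.tsum_le_of_sum_range_le fun n => ?_
  have h1 : ∑ m ∈ Finset.range n, (if i ≤ m then ENNReal.ofReal (wt p m) else 0) =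
      ENNReal.ofReal (∑ m ∈ Finset.range n, (if i ≤ m then wt p m else 0)) := by
    rw [ENNReal.ofReal_sum_of_nonneg]
    · refine Finset.sum_congr rfl fun m _ => ?_
      split_ifs <;> simp
    · intro m _
      split_ifs
      · exact wt_nonneg hp m
      · exact le_rfl
  rw [h1]
  apply ENNReal.ofReal_le_ofReal
  rcases le_total i n with hin | hin
  · rw [sum_wt i n hin]
    have : (0 : ℝ) < ((n : ℝ) + 1) ^ (1 - p) := Real.rpow_pos_of_pos (by positivity) _
    linarith
  · have : ∑ m ∈ Finset.range n, (if i ≤ m then wt p m else 0) = 0 := by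
      refine Finset.sum_eq_zero fun m hm => ?_
      rw [if_neg]
      have := Finset.mem_range.1 hm
      omega
    rw [this]
    exact (Real.rpow_pos_of_pos (by positivity) _).le

lemma cap_ge (hp : 1 < p) (i : ℕ) (φ : line.E → ℝ≥0)
    (h : ∀ x ∈ line.S (edg i), 1 ≤ line.hardyOp φ x) :
    ENNReal.ofReal (((i : ℝ) + 1) ^ (1 - p)) ≤ line.energy p (fun _ => 1) φ := by
  have h1 := h (pv (i + 1)) ((mem_S_line i (i + 1)).2 (by omega))
  rw [hardyOp_line] at h1
  have h2 := ENNReal.rpow_sum_le_const_mul_sum_rpow (Finset.range (i + 1))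
    (fun j => (φ (edg j) : ℝ≥0∞)) hp.le
  rw [Finset.card_range] at h2
  have h3 : (1 : ℝ≥0∞) ≤ ((i + 1 : ℕ) : ℝ≥0∞) ^ (p - 1) *
      ∑ j ∈ Finset.range (i + 1), (φ (edg j) : ℝ≥0∞) ^ p := by
    refine le_trans ?_ h2
    calc (1 : ℝ≥0∞) = 1 ^ p := (ENNReal.one_rpow p).symm
      _ ≤ _ := ENNReal.rpow_le_rpow h1 (by linarith)
  have h4 : ENNReal.ofReal (((i : ℝ) + 1) ^ (1 - p)) * ((i + 1 : ℕ) : ℝ≥0∞) ^ (p - 1) = 1 := by
    have h5 : ((i + 1 : ℕ) : ℝ≥0∞) = ENNReal.ofReal ((i : ℝ) + 1) := by
      rw [← ENNReal.ofReal_natCast]; push_cast; rfl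
    rw [h5, ENNReal.ofReal_rpow_of_pos (by positivity), ← ENNReal.ofReal_mul (by positivity),
      ← Real.rpow_add (by positivity)]
    simp
  calc ENNReal.ofReal (((i : ℝ) + 1) ^ (1 - p))
      = ENNReal.ofReal (((i : ℝ) + 1) ^ (1 - p)) * 1 := (mul_one _).symm
    _ ≤ ENNReal.ofReal (((i : ℝ) + 1) ^ (1 - p)) * (((i + 1 : ℕ) : ℝ≥0∞) ^ (p - 1) *
      ∑ j ∈ Finset.range (i + 1), (φ (edg j) : ℝ≥0∞) ^ p) := by gcongr
    _ = ∑ j ∈ Finset.range (i + 1), (φ (edg j) : ℝ≥0∞) ^ p := by
        rw [← mul_assoc, h4, one_mul]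
    _ ≤ line.energy p (fun _ => 1) φ := by
        rw [energy_line]
        exact ENNReal.sum_le_tsum _

lemma isoConst_line (hp : 1 < p) : line.isoConst p (fun _ => 1) (mu p) ≤ 1 := by
  unfold LFTree.isoConst
  refine iSup_le fun n => iSup_le fun hn => iSup_le fun α => iSup_le fun hdisj => ?_
  have hn1 : n = 1 := by
    by_contra hcon
    have h2 : 2 ≤ n := by omega
    obtain ⟨i, hi⟩ := edg_surj (α ⟨0, by omega⟩)
    obtain ⟨j, hj⟩ := edg_surj (α ⟨1, by omega⟩)
    have hd := hdisj (i := (⟨0, by omega⟩ : Fin n)) (j := ⟨1, by omega⟩) (by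
      intro h; have := congrArg Fin.val h; simp at this)
    simp only [← hi, ← hj] at hd
    refine Set.disjoint_left.1 hd ((mem_S_line i (max i j + 1)).2 ?_)
      ((mem_S_line j (max i j + 1)).2 ?_)
    · have := le_max_left i j; omega
    · have := le_max_right i j; omega
  subst hn1
  obtain ⟨i, hi⟩ := edg_surj (α 0)
  have hsum : ∑ j, mu p (line.S (α j)) = mu p (line.S (edg i)) := by
    rw [Fin.sum_univ_one, hi]
  have hU : ⋃ j, line.S (α j) = line.S (edg i) := by
    rw [hi]
    ext x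
    simp only [Set.mem_iUnion]
    constructor
    · rintro ⟨i, hx⟩
      rwa [Subsingleton.elim i 0] at hx
    · intro hx; exact ⟨0, hx⟩
  rw [hsum, hU]
  apply ENNReal.div_le_of_le_mul
  rw [one_mul]
  refine (mu_S_le hp i).trans ?_
  unfold LFTree.capacity
  refine le_iInf fun φ => le_iInf fun h => ?_
  exact cap_ge hp i φ h

/-- lower estimate of the weights -/
lemma wt_ge (hp : 1 < p) (m : ℕ) :
    (p - 1) / ((m : ℝ) + 1 + p) ≤ wt p m * ((m : ℝ) + 1) ^ (p - 1) := by
  have hp1 : 0 < p - 1 := by linarith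
  set x : ℝ := (m : ℝ) + 1 with hx
  have hx1 : 0 < x := by positivity
  have hx2 : (m : ℝ) + 2 = x + 1 := by rw [hx]; ring
  have h1 : wt p m * x ^ (p - 1) = 1 - ((x + 1) / x) ^ (1 - p) := by
    unfold wt
    rw [hx2, ← hx, sub_mul, ← Real.rpow_add hx1, Real.div_rpow (by positivity) hx1.le]
    have e1 : 1 - p + (p - 1) = 0 := by ring
    rw [e1, Real.rpow_zero]
    congr 1
    have e2 : x ^ (p - 1) = (x ^ (1 - p))⁻¹ := by
      rw [← Real.rpow_neg hx1.le]; congr 1; ring
    rw [e2]; rfl
  rw [h1]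
  have h2 : 1 + (p - 1) / (x + 1) ≤ ((x + 1) / x) ^ (p - 1) := by
    have h3 : 0 < (x + 1) / x := by positivity
    rw [Real.rpow_def_of_pos h3]
    have h4 : 1 / (x + 1) ≤ Real.log ((x + 1) / x) := by
      have h5 := Real.log_le_sub_one_of_pos (show 0 < x / (x + 1) by positivity)
      have h6 : Real.log ((x + 1) / x) = - Real.log (x / (x + 1)) := by
        rw [← Real.log_inv, inv_div]
      rw [h6]
      have h7 : x / (x + 1) - 1 = -(1 / (x + 1)) := by field_simp; ring
      linarith
    have h8 := Real.add_one_le_exp (Real.log ((x + 1) / x) * (p - 1))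
    have h9 : (p - 1) / (x + 1) ≤ Real.log ((x + 1) / x) * (p - 1) := by
      have := mul_le_mul_of_nonneg_right h4 hp1.le
      calc (p - 1) / (x + 1) = 1 / (x + 1) * (p - 1) := by ring
        _ ≤ _ := this
    linarith
  have h3 : ((x + 1) / x) ^ (1 - p) = (((x + 1) / x) ^ (p - 1))⁻¹ := by
    rw [← Real.rpow_neg (by positivity)]; congr 1; ring
  rw [h3]
  have h4 : 0 < 1 + (p - 1) / (x + 1) := by positivity
  have h5 : (((x + 1) / x) ^ (p - 1))⁻¹ ≤ (1 + (p - 1) / (x + 1))⁻¹ := inv_anti₀ h4 h2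
  have h6 : 1 - (1 + (p - 1) / (x + 1))⁻¹ = (p - 1) / (x + p) := by
    have h7 : x + 1 ≠ 0 := by positivity
    have h8 : x + p ≠ 0 := by positivity
    have h9 : 1 + (p - 1) / (x + 1) = (x + p) / (x + 1) := by field_simp; ring
    rw [h9, inv_div]
    field_simp
    ring
  linarith

/-- the test functions -/
noncomputable def tf (p : ℝ) (M : ℕ) (i : ℕ) : ℝ :=
  if i < M then ((i : ℝ) + 1) ^ ((p - 1) / p) - (i : ℝ) ^ ((p - 1) / p) else 0

lemma tf_nonneg (hp : 1 < p) (M i : ℕ) : 0 ≤ tf p M i := by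
  unfold tf
  split_ifs
  · have hb : 0 ≤ (p - 1) / p := div_nonneg (by linarith) (by linarith)
    have := Real.rpow_le_rpow (Nat.cast_nonneg i) (show (i : ℝ) ≤ i + 1 by linarith) hb
    linarith
  · exact le_rfl

lemma sum_tf (hp : 1 < p) (M m : ℕ) (hm : m ≤ M) :
    ∑ i ∈ Finset.range m, tf p M i = (m : ℝ) ^ ((p - 1) / p) := by
  induction m with
  | zero =>
    rw [Finset.sum_range_zero, Nat.cast_zero, Real.zero_rpow]
    exact (div_pos (by linarith) (by linarith)).ne'
  | succ m ih =>
    rw [Finset.sum_range_succ, ih (by omega), tf, if_pos (by omega)]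
    push_cast; ring

lemma tf_le (hp : 1 < p) (M i : ℕ) (hi : 1 ≤ i) :
    tf p M i ^ p ≤ ((p - 1) / p) ^ p * (1 / (i : ℝ)) := by
  have hp0 : 0 < p := by linarith
  set β := (p - 1) / p with hβ
  have hβ0 : 0 < β := div_pos (by linarith) hp0
  have hβ1 : β ≤ 1 := by rw [hβ, div_le_one hp0]; linarith
  have hi0 : (0 : ℝ) < i := by exact_mod_cast hi
  unfold tf
  split_ifs with h
  · have h1 : ((i : ℝ) + 1) ^ β ≤ (i : ℝ) ^ β * (1 + β * (1 / i)) := by
      have h2 : (i : ℝ) + 1 = i * (1 + 1 / i) := by field_simp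
      rw [h2, Real.mul_rpow hi0.le (by positivity)]
      apply mul_le_mul_of_nonneg_left _ (by positivity)
      exact rpow_one_add_le_one_add_mul_self (by have : (0 : ℝ) < 1 / i := by positivity
                                                 linarith) hβ0.le hβ1
    have h3 : ((i : ℝ) + 1) ^ β - (i : ℝ) ^ β ≤ β * ((i : ℝ) ^ β * (1 / i)) := by linarith
    have h4 : 0 ≤ ((i : ℝ) + 1) ^ β - (i : ℝ) ^ β := by
      have := Real.rpow_le_rpow hi0.le (show (i : ℝ) ≤ i + 1 by linarith) hβ0.le
      linarith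
    calc (((i : ℝ) + 1) ^ β - (i : ℝ) ^ β) ^ p ≤ (β * ((i : ℝ) ^ β * (1 / i))) ^ p :=
          Real.rpow_le_rpow h4 h3 hp0.le
      _ = β ^ p * (1 / (i : ℝ)) := by
          rw [Real.mul_rpow hβ0.le (by positivity), Real.mul_rpow (by positivity) (by positivity),
            ← Real.rpow_mul hi0.le, one_div, Real.inv_rpow hi0.le, ← Real.rpow_neg hi0.le,
            ← Real.rpow_add hi0, ← Real.rpow_neg_one (i : ℝ)]
          congr 2
          rw [hβ]; field_simp; ring
  · rw [Real.zero_rpow hp0.ne']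
    positivity

/-- harmonic sums -/
noncomputable def harm (M : ℕ) : ℝ := ∑ i ∈ Finset.range M, 1 / ((i : ℝ) + 1)

lemma harm_tendsto : Filter.Tendsto harm Filter.atTop Filter.atTop :=
  Real.tendsto_sum_range_one_div_nat_succ_atTop

lemma harm_nonneg (M : ℕ) : 0 ≤ harm M := Finset.sum_nonneg fun i _ => by positivity

lemma energy_tf_le (hp : 1 < p) (M : ℕ) :
    ∑ i ∈ Finset.range (M + 1), tf p (M + 1) i ^ p ≤ 1 + ((p - 1) / p) ^ p * harm M := by
  rw [Finset.sum_range_succ']
  have h1 : tf p (M + 1) 0 ^ p = 1 := by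
    unfold tf
    rw [if_pos (by omega), Nat.cast_zero, zero_add, Real.one_rpow, Real.zero_rpow, sub_zero,
      Real.one_rpow]
    exact (div_pos (by linarith) (by linarith)).ne'
  rw [h1, add_comm]
  have h2 : ∑ i ∈ Finset.range M, tf p (M + 1) (i + 1) ^ p ≤ ((p - 1) / p) ^ p * harm M := by
    unfold harm
    rw [Finset.mul_sum]
    refine Finset.sum_le_sum fun i _ => ?_
    have := tf_le hp (M + 1) (i + 1) (by omega)
    push_cast at this
    exact this
  linarith

lemma lhs_ge (hp : 1 < p) (N : ℕ) (hN : p ≤ N) (M : ℕ) :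
    (p - 1) * (harm M - harm N) ≤ ∑ m ∈ Finset.range (M + 1), wt p m * ((m : ℝ) + 1) ^ (p - 1) := by
  have hp1 : 0 < p - 1 := by linarith
  have h1 : ∑ m ∈ Finset.range (M + 1), (p - 1) / ((m : ℝ) + 1 + p) ≤
      ∑ m ∈ Finset.range (M + 1), wt p m * ((m : ℝ) + 1) ^ (p - 1) :=
    Finset.sum_le_sum fun m _ => wt_ge hp m
  refine le_trans ?_ h1
  have h2 : ∑ m ∈ Finset.range (M + 1), (p - 1) * (1 / ((m : ℝ) + N + 1)) ≤
      ∑ m ∈ Finset.range (M + 1), (p - 1) / ((m : ℝ) + 1 + p) := by
    refine Finset.sum_le_sum fun m _ => ?_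
    rw [mul_one_div]
    apply div_le_div_of_nonneg_left hp1.le (by positivity)
    linarith
  refine le_trans ?_ h2
  rw [← Finset.mul_sum]
  apply mul_le_mul_of_nonneg_left _ hp1.le
  have h3 : harm (N + (M + 1)) = harm N + ∑ m ∈ Finset.range (M + 1), 1 / ((m : ℝ) + N + 1) := by
    unfold harm
    rw [Finset.sum_range_add]
    congr 1
    refine Finset.sum_congr rfl fun m _ => ?_
    push_cast; ring
  have h4 : harm M ≤ harm (N + (M + 1)) := by
    unfold harm
    exact Finset.sum_le_sum_of_subset_of_nonneg (Finset.range_mono (by omega))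
      fun i _ _ => by positivity
  linarith

/-- Lower bound for the Hardy constant of the half-line. -/
theorem hardyConst_line (hp : 1 < p) :
    ENNReal.ofReal (sharpK p) ≤ line.hardyConst p (fun _ => 1) (mu p) := by
  have hp0 : 0 < p := by linarith
  have hp1 : 0 < p - 1 := by linarith
  unfold LFTree.hardyConst
  refine le_sInf fun C hC => ?_
  by_cases hCt : C = ∞
  · rw [hCt]; exact le_top
  set c := C.toReal with hc
  have hCc : C = ENNReal.ofReal c := (ENNReal.ofReal_toReal hCt).symm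
  have hc0 : 0 ≤ c := ENNReal.toReal_nonneg
  -- the inequality for the test functions
  have key : ∀ M : ℕ, ∑ m ∈ Finset.range (M + 1), wt p m * ((m : ℝ) + 1) ^ (p - 1) ≤
      c * ∑ i ∈ Finset.range (M + 1), tf p (M + 1) i ^ p := by
    intro M
    set φ : line.E → ℝ≥0 := fun e => (tf p (M + 1) (edgEquiv.symm e)).toNNReal with hφ
    have hφe : ∀ i, (φ (edg i) : ℝ≥0∞) = ENNReal.ofReal (tf p (M + 1) i) := by
      intro i
      have : edgEquiv.symm (edg i) = i := by
        rw [← edgEquiv_apply, Equiv.symm_apply_apply]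
      simp only [hφ, this]
      rfl
    have h1 := hC φ
    have h2 : line.energy p (fun _ => 1) φ =
        ENNReal.ofReal (∑ i ∈ Finset.range (M + 1), tf p (M + 1) i ^ p) := by
      rw [energy_line, tsum_eq_sum (s := Finset.range (M + 1))]
      · rw [ENNReal.ofReal_sum_of_nonneg fun i _ => Real.rpow_nonneg (tf_nonneg hp _ _) _]
        refine Finset.sum_congr rfl fun i _ => ?_
        rw [hφe, ENNReal.ofReal_rpow_of_nonneg (tf_nonneg hp _ _) hp0.le]
      · intro i hi
        rw [Finset.mem_range] at hi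
        rw [hφe, tf, if_neg hi, ENNReal.ofReal_zero, ENNReal.zero_rpow_of_pos hp0]
    have hmeas : ∀ m : ℕ, MeasurableSet ({pv m} : Set line.Point) := fun m =>
      LFTree.vertex_measurable (T := line) m
    have h3 : ENNReal.ofReal (∑ m ∈ Finset.range (M + 1), wt p m * ((m : ℝ) + 1) ^ (p - 1)) ≤
        ∫⁻ x, line.hardyOp φ x ^ p ∂(mu p) := by
      unfold mu
      rw [lintegral_sum_measure]
      refine le_trans ?_ (ENNReal.sum_le_tsum (Finset.range (M + 1)))
      rw [ENNReal.ofReal_sum_of_nonneg fun m _ => mul_nonneg (wt_nonneg hp m) (by positivity)]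
      refine Finset.sum_le_sum fun m hm => ?_
      rw [Finset.mem_range] at hm
      rw [lintegral_smul_measure, ENNReal.ofReal_mul (wt_nonneg hp m), smul_eq_mul]
      gcongr
      have h4 : line.hardyOp φ (pv (m + 1)) = ENNReal.ofReal (((m : ℝ) + 1) ^ ((p - 1) / p)) := by
        rw [hardyOp_line]
        simp only [hφe]
        rw [← ENNReal.ofReal_sum_of_nonneg fun i _ => tf_nonneg hp _ _,
          sum_tf hp (M + 1) (m + 1) (by omega)]
        push_cast; rfl
      have h5 : ENNReal.ofReal (((m : ℝ) + 1) ^ (p - 1)) = line.hardyOp φ (pv (m + 1)) ^ p := by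
        rw [h4, ENNReal.ofReal_rpow_of_nonneg (by positivity) hp0.le,
          ← Real.rpow_mul (by positivity)]
        congr 2
        field_simp
      rw [h5]
      calc line.hardyOp φ (pv (m + 1)) ^ p
          = ∫⁻ x in {pv (m + 1)}, line.hardyOp φ (pv (m + 1)) ^ p
              ∂(Measure.dirac (pv (m + 1))) := by
            rw [lintegral_const, Measure.restrict_apply MeasurableSet.univ, Set.univ_inter,
              Measure.dirac_apply' _ (hmeas _)]
            simp
        _ ≤ ∫⁻ x in {pv (m + 1)}, line.hardyOp φ x ^ p ∂(Measure.dirac (pv (m + 1))) := by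
            apply setLIntegral_mono' (hmeas _)
            intro x hx
            rw [Set.mem_singleton_iff] at hx
            rw [hx]
        _ ≤ ∫⁻ x, line.hardyOp φ x ^ p ∂(Measure.dirac (pv (m + 1))) :=
            setLIntegral_le_lintegral _ _
    have h6 := h3.trans h1
    rw [h2, hCc, ← ENNReal.ofReal_mul hc0] at h6
    rwa [ENNReal.ofReal_le_ofReal_iff] at h6
    exact mul_nonneg hc0 (Finset.sum_nonneg fun i _ => Real.rpow_nonneg (tf_nonneg hp _ _) _)
  -- pass to the limit
  obtain ⟨N, hN⟩ := exists_nat_ge p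
  set b : ℝ := ((p - 1) / p) ^ p with hb
  have hb0 : 0 < b := by
    have : 0 < (p - 1) / p := div_pos hp1 hp0
    positivity
  have hineq : ∀ M : ℕ, (p - 1) * (harm M - harm N) ≤ c * (1 + b * harm M) := fun M =>
    (lhs_ge hp N hN M).trans ((key M).trans
      (mul_le_mul_of_nonneg_left (energy_tf_le hp M) hc0))
  have hmain : p - 1 ≤ c * b := by
    by_contra hcon
    push Not at hcon
    have hpos : 0 < p - 1 - c * b := by linarith
    have hbd : ∀ M : ℕ, harm M ≤ (c + (p - 1) * harm N) / (p - 1 - c * b) := by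
      intro M
      rw [le_div_iff₀ hpos]
      have := hineq M
      nlinarith
    have := (harm_tendsto.eventually_gt_atTop ((c + (p - 1) * harm N) / (p - 1 - c * b))).exists
    obtain ⟨M, hM⟩ := this
    exact absurd (hbd M) (not_le.2 hM)
  rw [hCc]
  apply ENNReal.ofReal_le_ofReal
  have hK : sharpK p * b = p - 1 := by
    unfold sharpK
    rw [hb, Real.div_rpow hp1.le hp0.le]
    have h1 : 0 < p ^ p := Real.rpow_pos_of_pos hp0 _
    have h2 : 0 < (p - 1) ^ (p - 1) := Real.rpow_pos_of_pos hp1 _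
    have h3 : (p - 1) ^ p = (p - 1) ^ (p - 1) * (p - 1) := by
      have := Real.rpow_add hp1 (p - 1) 1
      rw [Real.rpow_one] at this
      rw [← this]; congr 1; ring
    rw [h3]
    field_simp
  have : sharpK p * b ≤ c * b := by rw [hK]; exact hmain
  exact le_of_mul_le_mul_right this hb0

end

end Pool.Agent.Lib.MP_a9eb04
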