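import Pool.Agent.Lib.MP_a9eb04.Edge

/-!
# The capacitary Hardy inequality for laminar families
-/

set_option autoImplicit false

open MeasureTheory Set
open scoped ENNReal NNReal

namespace Pool.Agent.Lib.MP_a9eb04

section chain

variable {X E : Type*} (S : E → Set X)

open Classical in
/-- members of `F` whose set contains `S α` -/
noncomputable def up (F : Finset E) (α : E) : Finset E := F.filter (fun β => S α ⊆ S β)

open Classical in
/-- members of `F` whose set strictly contains `S α` -/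
noncomputable def sup' (F : Finset E) (α : E) : Finset E := F.filter (fun β => S α ⊂ S β)

variable {S}

lemma mem_up {F : Finset E} {α β : E} : β ∈ up S F α ↔ β ∈ F ∧ S α ⊆ S β := by
  simp [up]

lemma mem_sup' {F : Finset E} {α β : E} : β ∈ sup' S F α ↔ β ∈ F ∧ S α ⊂ S β := by
  simp [sup']

lemma up_eq_insert [DecidableEq E] (hinj : Function.Injective S) {F : Finset E} {α : E}
    (hα : α ∈ F) : up S F α = insert α (sup' S F α) := by
  ext β
  rw [Finset.mem_insert, mem_up, mem_sup']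
  constructor
  · rintro ⟨h1, h2⟩
    by_cases h : β = α
    · exact Or.inl h
    · right
      refine ⟨h1, h2.ssubset_of_ne fun h3 => h (hinj h3).symm⟩
  · rintro (rfl | ⟨h1, h2⟩)
    · exact ⟨hα, Subset.rfl⟩
    · exact ⟨h1, h2.subset⟩

lemma not_mem_sup' {F : Finset E} {α : E} : α ∉ sup' S F α := by
  rw [mem_sup']
  exact fun h => h.2.ne rfl

/-- minimal element of a chain -/
lemma exists_least (D : Finset E) (hD : D.Nonempty)
    (hchain : ∀ β ∈ D, ∀ γ ∈ D, S β ⊆ S γ ∨ S γ ⊆ S β) : ∃ β ∈ D, ∀ γ ∈ D, S β ⊆ S γ := by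
  obtain ⟨β, hβ⟩ := D.exists_minimalFor S hD
  refine ⟨β, hβ.1, fun γ hγ => ?_⟩
  rcases hchain β hβ.1 γ hγ with h | h
  · exact h
  · exact hβ.2 hγ h

lemma exists_pred (hlam : ∀ α β, S α ⊆ S β ∨ S β ⊆ S α ∨ Disjoint (S α) (S β))
    (hne : ∀ α, (S α).Nonempty) {F : Finset E} {α : E} (h : (sup' S F α).Nonempty) :
    ∃ β ∈ F, up S F β = sup' S F α ∧ S α ⊂ S β := by
  obtain ⟨β, hβ, hmin⟩ := exists_least (S := S) (sup' S F α) h (by
    intro β hβ γ hγ
    rw [mem_sup'] at hβ hγ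
    rcases hlam β γ with h1 | h1 | h1
    · exact Or.inl h1
    · exact Or.inr h1
    · exfalso
      obtain ⟨x, hx⟩ := hne α
      exact (Set.disjoint_left.1 h1) (hβ.2.subset hx) (hγ.2.subset hx))
  rw [mem_sup'] at hβ
  refine ⟨β, hβ.1, ?_, hβ.2⟩
  ext γ
  rw [mem_up]
  constructor
  · rintro ⟨h1, h2⟩
    rw [mem_sup']
    exact ⟨h1, hβ.2.trans_subset h2⟩
  · intro hγ
    exact ⟨(mem_sup'.1 hγ).1, hmin γ hγ⟩

variable (S)

/-- value at the end of an edge -/
noncomputable def Uv (F : Finset E) (φ : E → ℝ≥0) (α : E) : ℝ := ∑ β ∈ up S F α, (φ β : ℝ)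

/-- value at the beginning of an edge -/
noncomputable def Uv' (F : Finset E) (φ : E → ℝ≥0) (α : E) : ℝ := ∑ β ∈ sup' S F α, (φ β : ℝ)

variable {S}

lemma Uv'_nonneg (F : Finset E) (φ : E → ℝ≥0) (α : E) : 0 ≤ Uv' S F φ α :=
  Finset.sum_nonneg fun _ _ => NNReal.coe_nonneg _

lemma Uv_eq (hinj : Function.Injective S) {F : Finset E} (φ : E → ℝ≥0) {α : E}
    (hα : α ∈ F) : Uv S F φ α = φ α + Uv' S F φ α := by
  classical
  unfold Uv Uv'
  rw [up_eq_insert hinj hα, Finset.sum_insert not_mem_sup']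

lemma telescope (hlam : ∀ α β, S α ⊆ S β ∨ S β ⊆ S α ∨ Disjoint (S α) (S β))
    (hne : ∀ α, (S α).Nonempty) (hinj : Function.Injective S) (F : Finset E) (φ : E → ℝ≥0)
    (Λ : ℝ → ℝ) : ∀ (n : ℕ) (α : E), α ∈ F → (up S F α).card = n →
      ∑ γ ∈ up S F α, (Λ (Uv S F φ γ) - Λ (Uv' S F φ γ)) = Λ (Uv S F φ α) - Λ 0 := by
  classical
  intro n
  induction n using Nat.strong_induction_on with
  | _ n ih =>
    intro α hα hn
    have h1 := up_eq_insert hinj hα
    by_cases h : (sup' S F α).Nonempty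
    · obtain ⟨β, hβ, hup, hss⟩ := exists_pred hlam hne h
      have hcard : (up S F β).card < n := by
        rw [hup, ← hn, h1, Finset.card_insert_of_notMem not_mem_sup']
        omega
      have h2 := ih _ hcard β hβ rfl
      have h3 : Uv S F φ β = Uv' S F φ α := by unfold Uv Uv'; rw [hup]
      rw [h1, Finset.sum_insert not_mem_sup', ← hup, h2, h3]
      ring
    · rw [Finset.not_nonempty_iff_eq_empty] at h
      have h3 : Uv' S F φ α = 0 := by unfold Uv'; rw [h]; simp
      rw [h1, h]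
      simp [h3]

/-- level lemma -/
lemma level_aux (hlam : ∀ α β, S α ⊆ S β ∨ S β ⊆ S α ∨ Disjoint (S α) (S β))
    (hne : ∀ α, (S α).Nonempty) (hinj : Function.Injective S) (F : Finset E) (φ : E → ℝ≥0)
    (x : X) (t : ℝ) (ht : 0 ≤ t) : ∀ (n : ℕ) (α : E), α ∈ F → (up S F α).card = n → x ∈ S α →
      t < Uv S F φ α → ∃ β ∈ F, x ∈ S β ∧ Uv' S F φ β ≤ t ∧ t < Uv S F φ β := by
  classical
  intro n
  induction n using Nat.strong_induction_on with
  | _ n ih =>
    intro α hα hn hx htα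
    by_cases hle : Uv' S F φ α ≤ t
    · exact ⟨α, hα, hx, hle, htα⟩
    · push Not at hle
      have hnon : (sup' S F α).Nonempty := by
        by_contra hcon
        rw [Finset.not_nonempty_iff_eq_empty] at hcon
        have h3 : Uv' S F φ α = 0 := by unfold Uv'; rw [hcon]; simp
        linarith
      obtain ⟨β, hβ, hup, hss⟩ := exists_pred hlam hne hnon
      have h1 := up_eq_insert hinj hα
      have hcard : (up S F β).card < n := by
        rw [hup, ← hn, h1, Finset.card_insert_of_notMem not_mem_sup']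
        omega
      have h3 : Uv S F φ β = Uv' S F φ α := by unfold Uv Uv'; rw [hup]
      exact ih _ hcard β hβ rfl (hss.subset hx) (by rw [h3]; exact hle)

open Classical in
lemma level (hlam : ∀ α β, S α ⊆ S β ∨ S β ⊆ S α ∨ Disjoint (S α) (S β))
    (hne : ∀ α, (S α).Nonempty) (hinj : Function.Injective S) (F : Finset E) (φ : E → ℝ≥0)
    (x : X) (t : ℝ) (ht : 0 ≤ t) (hx : t < ∑ α ∈ F.filter (fun α => x ∈ S α), (φ α : ℝ)) :
    ∃ β ∈ F, x ∈ S β ∧ Uv' S F φ β ≤ t ∧ t < Uv S F φ β := by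
  have hnon : (F.filter (fun α => x ∈ S α)).Nonempty := by
    by_contra hcon
    rw [Finset.not_nonempty_iff_eq_empty] at hcon
    rw [hcon, Finset.sum_empty] at hx
    linarith
  obtain ⟨α, hα, hmin⟩ := exists_least (S := S) _ hnon (by
    intro β hβ γ hγ
    rw [Finset.mem_filter] at hβ hγ
    rcases hlam β γ with h1 | h1 | h1
    · exact Or.inl h1
    · exact Or.inr h1
    · exfalso
      exact (Set.disjoint_left.1 h1) hβ.2 hγ.2)
  rw [Finset.mem_filter] at hα
  have hup : up S F α = F.filter (fun α => x ∈ S α) := by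
    ext γ
    rw [mem_up, Finset.mem_filter]
    constructor
    · rintro ⟨h1, h2⟩
      exact ⟨h1, h2 hα.2⟩
    · rintro ⟨h1, h2⟩
      exact ⟨h1, hmin γ (Finset.mem_filter.2 ⟨h1, h2⟩)⟩
  refine level_aux hlam hne hinj F φ x t ht _ α hα.1 rfl hα.2 ?_
  unfold Uv
  rw [hup]
  exact hx

lemma level_disjoint (hlam : ∀ α β, S α ⊆ S β ∨ S β ⊆ S α ∨ Disjoint (S α) (S β))
    (hinj : Function.Injective S) (F : Finset E) (φ : E → ℝ≥0) (t : ℝ) {α β : E}
    (hαF : α ∈ F) (hβF : β ∈ F) (hne : α ≠ β)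
    (hα : Uv' S F φ α ≤ t ∧ t < Uv S F φ α) (hβ : Uv' S F φ β ≤ t ∧ t < Uv S F φ β) :
    Disjoint (S α) (S β) := by
  have key : ∀ α β : E, α ∈ F → β ∈ F → α ≠ β → Uv' S F φ α ≤ t → t < Uv S F φ β →
      S α ⊆ S β → False := by
    intro α β _ _ hne h1 h2 h3
    have h4 : S α ⊂ S β := h3.ssubset_of_ne fun h => hne (hinj h)
    have h5 : up S F β ⊆ sup' S F α := by
      intro γ hγ
      rw [mem_up] at hγ
      rw [mem_sup']
      exact ⟨hγ.1, h4.trans_subset hγ.2⟩
    have h6 : Uv S F φ β ≤ Uv' S F φ α := by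
      unfold Uv Uv'
      exact Finset.sum_le_sum_of_subset_of_nonneg h5 fun _ _ _ => NNReal.coe_nonneg _
    linarith
  rcases hlam α β with h | h | h
  · exact (key α β hαF hβF hne hα.1 hβ.2 h).elim
  · exact (key β α hβF hαF hne.symm hβ.1 hα.2 h).elim
  · exact h

end chain

section main

variable {X E : Type*} [MeasurableSpace X]

/-- Hardy operator of a family of sets: `I φ (x) = ∑_{α : x ∈ S α} φ α`. -/
noncomputable def opI (S : E → Set X) (φ : E → ℝ≥0) (x : X) : ℝ≥0∞ :=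
  ∑' α, (S α).indicator (fun _ => (φ α : ℝ≥0∞)) x

/-- energy of a function on the index set -/
noncomputable def energyE (p : ℝ) (π φ : E → ℝ≥0) : ℝ≥0∞ := ∑' α, (φ α : ℝ≥0∞) ^ p * π α

open Classical in
/-- finite version of the inequality -/
theorem laminar_finite (S : E → Set X) (hS : ∀ α, MeasurableSet (S α))
    (hlam : ∀ α β, S α ⊆ S β ∨ S β ⊆ S α ∨ Disjoint (S α) (S β))
    (hne : ∀ α, (S α).Nonempty) (hinj : Function.Injective S) {p : ℝ} (hp : 1 < p)
    (π : E → ℝ≥0) (μ : Measure X) (B : ℝ≥0∞)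
    (hB : ∀ F : Finset E, (F : Set E).PairwiseDisjoint S → ∀ ψ : E → ℝ≥0,
      (∀ x ∈ ⋃ α ∈ F, S α, 1 ≤ opI S ψ x) → energyE p π ψ ≠ ∞ →
        ∑ α ∈ F, μ (S α) ≤ B * energyE p π ψ) (φ : E → ℝ≥0) (F : Finset E) :
    ∫⁻ x, (∑ α ∈ F, (S α).indicator (fun _ => (φ α : ℝ≥0∞)) x) ^ p ∂μ ≤
      ENNReal.ofReal (sharpK p) * B * ∑ α ∈ F, (φ α : ℝ≥0∞) ^ p * π α := by
  have hp0 : 0 < p := by linarith
  set u : X → ℝ := fun x => ∑ α ∈ F, (S α).indicator (fun _ => (φ α : ℝ)) x with hu
  have hu0 : ∀ x, 0 ≤ u x := fun x => Finset.sum_nonneg fun α _ =>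
    indicator_nonneg (fun _ _ => NNReal.coe_nonneg _) _
  have humeas : Measurable u :=
    Finset.measurable_fun_sum _ fun α _ => measurable_const.indicator (hS α)
  have hucast : ∀ x, (∑ α ∈ F, (S α).indicator (fun _ => (φ α : ℝ≥0∞)) x) ^ p =
      ENNReal.ofReal (u x ^ p) := by
    intro x
    rw [← ENNReal.ofReal_rpow_of_nonneg (hu0 x) hp0.le]
    congr 1
    simp only [hu]
    rw [ENNReal.ofReal_sum_of_nonneg fun α _ => indicator_nonneg (fun _ _ => NNReal.coe_nonneg _) _]
    refine Finset.sum_congr rfl fun α _ => ?_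
    by_cases hx : x ∈ S α
    · simp [indicator_of_mem hx]
    · simp [indicator_of_notMem hx]
  simp only [hucast]
  rw [lintegral_rpow_eq_lintegral_meas_lt_mul μ (ae_of_all _ hu0) humeas.aemeasurable hp0]
  -- level set estimate
  have hlevel : ∀ t ∈ Ioi (0 : ℝ), μ {x | t < u x} ≤ B * ∑ γ ∈ F,
      ENNReal.ofReal (lam p t (Uv S F φ γ) - lam p t (Uv' S F φ γ)) ^ p * π γ := by
    intro t ht
    have ht0 : 0 < t := ht
    set A : Finset E := F.filter (fun α => Uv' S F φ α ≤ t ∧ t < Uv S F φ α) with hA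
    have hAF : ∀ α ∈ A, α ∈ F ∧ Uv' S F φ α ≤ t ∧ t < Uv S F φ α := by
      intro α hα; rwa [hA, Finset.mem_filter] at hα
    have hsub : {x | t < u x} ⊆ ⋃ α ∈ A, S α := by
      intro x hx
      have hx' : t < ∑ α ∈ F.filter (fun α => x ∈ S α), (φ α : ℝ) := by
        have h1 : u x = ∑ α ∈ F.filter (fun α => x ∈ S α), (φ α : ℝ) := by
          simp only [hu]
          rw [Finset.sum_filter]
          exact Finset.sum_congr rfl fun α _ => by simp [indicator]
        rw [← h1]; exact hx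
      obtain ⟨β, hβ, hxβ, h1, h2⟩ := level hlam hne hinj F φ x t ht0.le hx'
      exact mem_iUnion₂.2 ⟨β, Finset.mem_filter.2 ⟨hβ, h1, h2⟩, hxβ⟩
    have hdisj : (A : Set E).PairwiseDisjoint S := by
      intro α hα β hβ hαβ
      obtain ⟨a1, a2⟩ := hAF α hα
      obtain ⟨b1, b2⟩ := hAF β hβ
      exact level_disjoint hlam hinj F φ t a1 b1 hαβ a2 b2
    set ψ : E → ℝ≥0 := fun γ => if γ ∈ F then
      Real.toNNReal (lam p t (Uv S F φ γ) - lam p t (Uv' S F φ γ)) else 0 with hψ
    have hUmono : ∀ γ ∈ F, 0 ≤ lam p t (Uv S F φ γ) - lam p t (Uv' S F φ γ) := by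
      intro γ hγ
      have h1 := Uv_eq hinj φ hγ
      have h2 := lam_mono hp ht0 (Uv'_nonneg F φ γ)
        (show Uv' S F φ γ ≤ Uv S F φ γ by rw [h1]; linarith [NNReal.coe_nonneg (φ γ)])
      linarith
    have henergy : energyE p π ψ = ∑ γ ∈ F,
        ENNReal.ofReal (lam p t (Uv S F φ γ) - lam p t (Uv' S F φ γ)) ^ p * π γ := by
      unfold energyE
      rw [tsum_eq_sum (s := F)]
      · refine Finset.sum_congr rfl fun γ hγ => ?_
        simp only [hψ, hγ, if_true]
        rfl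
      · intro γ hγ
        simp only [hψ, hγ, if_false]
        simp [ENNReal.zero_rpow_of_pos hp0]
    have hfin : energyE p π ψ ≠ ∞ := by
      rw [henergy]
      refine (ENNReal.sum_lt_top.2 fun γ _ => ?_).ne
      exact ENNReal.mul_lt_top (ENNReal.rpow_lt_top_of_nonneg hp0.le ENNReal.ofReal_ne_top)
        ENNReal.coe_lt_top
    have htest : ∀ x ∈ ⋃ α ∈ A, S α, 1 ≤ opI S ψ x := by
      intro x hx
      obtain ⟨α, hα, hxα⟩ := mem_iUnion₂.1 hx
      obtain ⟨hαF, hα1, hα2⟩ := hAF α hα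
      have htel := telescope hlam hne hinj F φ (lam p t) _ α hαF rfl
      rw [lam_one ht0 hα2.le, lam_zero hp ht0, sub_zero] at htel
      unfold opI
      refine le_trans ?_ (ENNReal.sum_le_tsum (up S F α))
      have h1 : ∑ γ ∈ up S F α, (S γ).indicator (fun _ => (ψ γ : ℝ≥0∞)) x =
          ∑ γ ∈ up S F α, ENNReal.ofReal (lam p t (Uv S F φ γ) - lam p t (Uv' S F φ γ)) := by
        refine Finset.sum_congr rfl fun γ hγ => ?_
        rw [mem_up] at hγ
        rw [indicator_of_mem (hγ.2 hxα)]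
        simp only [hψ, hγ.1, if_true]
        rfl
      rw [h1, ← ENNReal.ofReal_sum_of_nonneg, htel, ENNReal.ofReal_one]
      intro γ hγ
      exact hUmono γ (mem_up.1 hγ).1
    calc μ {x | t < u x} ≤ μ (⋃ α ∈ A, S α) := measure_mono hsub
      _ ≤ ∑ α ∈ A, μ (S α) := measure_biUnion_finset_le _ _
      _ ≤ B * energyE p π ψ := hB A hdisj ψ htest hfin
      _ = _ := by rw [henergy]
  -- integrate
  calc ENNReal.ofReal p * ∫⁻ t in Ioi (0 : ℝ), μ {x | t < u x} * ENNReal.ofReal (t ^ (p - 1))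
      ≤ ENNReal.ofReal p * ∫⁻ t in Ioi (0 : ℝ), (B * ∑ γ ∈ F,
          ENNReal.ofReal (lam p t (Uv S F φ γ) - lam p t (Uv' S F φ γ)) ^ p * π γ) *
            ENNReal.ofReal (t ^ (p - 1)) := by
        gcongr ENNReal.ofReal p * ?_
        exact setLIntegral_mono' measurableSet_Ioi fun t ht => by
          gcongr
          exact hlevel t ht
    _ = ∫⁻ t in Ioi (0 : ℝ), ∑ γ ∈ F, B * π γ * (ENNReal.ofReal (p * t ^ (p - 1)) *
          ENNReal.ofReal (lam p t (Uv S F φ γ) - lam p t (Uv' S F φ γ)) ^ p) := by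
        rw [← lintegral_const_mul' _ _ ENNReal.ofReal_ne_top]
        refine lintegral_congr fun t => ?_
        rw [Finset.mul_sum, Finset.sum_mul, Finset.mul_sum]
        refine Finset.sum_congr rfl fun γ _ => ?_
        rw [ENNReal.ofReal_mul hp0.le]
        ring
    _ = ∑ γ ∈ F, ∫⁻ t in Ioi (0 : ℝ), B * π γ * (ENNReal.ofReal (p * t ^ (p - 1)) *
          ENNReal.ofReal (lam p t (Uv S F φ γ) - lam p t (Uv' S F φ γ)) ^ p) := by
        rw [lintegral_finsetSum']
        intro γ _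
        apply Measurable.aemeasurable
        have hlm : ∀ r : ℝ, Measurable fun t : ℝ => lam p t r := by
          intro r
          unfold lam
          exact ((measurable_const.min measurable_id).div measurable_id).pow_const _
        exact (((measurable_id.pow_const _).const_mul p).ennreal_ofReal.mul
          (((hlm _).sub (hlm _)).ennreal_ofReal.pow_const _)).const_mul _
    _ = ∑ γ ∈ F, B * π γ * ∫⁻ t in Ioi (0 : ℝ), (ENNReal.ofReal (p * t ^ (p - 1)) *
          ENNReal.ofReal (lam p t (Uv S F φ γ) - lam p t (Uv' S F φ γ)) ^ p) := by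
        refine Finset.sum_congr rfl fun γ _ => ?_
        rw [lintegral_const_mul]
        have hlm : ∀ r : ℝ, Measurable fun t : ℝ => lam p t r := by
          intro r
          unfold lam
          exact ((measurable_const.min measurable_id).div measurable_id).pow_const _
        exact ((measurable_id.pow_const _).const_mul p).ennreal_ofReal.mul
          (((hlm _).sub (hlm _)).ennreal_ofReal.pow_const _)
    _ ≤ ∑ γ ∈ F, B * π γ * ENNReal.ofReal (sharpK p * (φ γ : ℝ) ^ p) := by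
        refine Finset.sum_le_sum fun γ hγ => ?_
        gcongr
        have h1 := Uv_eq hinj φ hγ
        have h2 := edge_ineq (a := Uv' S F φ γ) (b := Uv S F φ γ) hp (Uv'_nonneg F φ γ)
          (by rw [h1]; linarith [NNReal.coe_nonneg (φ γ)])
        have h3 : Uv S F φ γ - Uv' S F φ γ = φ γ := by rw [h1]; ring
        rw [h3] at h2
        exact h2
    _ = ENNReal.ofReal (sharpK p) * B * ∑ α ∈ F, (φ α : ℝ≥0∞) ^ p * π α := by
        rw [Finset.mul_sum]
        refine Finset.sum_congr rfl fun γ _ => ?_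
        rw [ENNReal.ofReal_mul (sharpK_pos hp).le,
          ← ENNReal.ofReal_rpow_of_nonneg (NNReal.coe_nonneg _) hp0.le, ENNReal.ofReal_coe_nnreal]
        ring

/-- The capacitary Hardy inequality for laminar families. -/
theorem laminar_hardy [Countable E] (S : E → Set X) (hS : ∀ α, MeasurableSet (S α))
    (hlam : ∀ α β, S α ⊆ S β ∨ S β ⊆ S α ∨ Disjoint (S α) (S β))
    (hne : ∀ α, (S α).Nonempty) (hinj : Function.Injective S) {p : ℝ} (hp : 1 < p)
    (π : E → ℝ≥0) (μ : Measure X) (B : ℝ≥0∞)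
    (hB : ∀ F : Finset E, (F : Set E).PairwiseDisjoint S → ∀ ψ : E → ℝ≥0,
      (∀ x ∈ ⋃ α ∈ F, S α, 1 ≤ opI S ψ x) → energyE p π ψ ≠ ∞ →
        ∑ α ∈ F, μ (S α) ≤ B * energyE p π ψ) (φ : E → ℝ≥0) :
    ∫⁻ x, (opI S φ x) ^ p ∂μ ≤ ENNReal.ofReal (sharpK p) * B * energyE p π φ := by
  have hp0 : 0 < p := by linarith
  have h1 : ∀ x, (opI S φ x) ^ p =
      ⨆ F : Finset E, (∑ α ∈ F, (S α).indicator (fun _ => (φ α : ℝ≥0∞)) x) ^ p := by
    intro x
    unfold opI
    rw [ENNReal.tsum_eq_iSup_sum]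
    exact (ENNReal.orderIsoRpow p hp0).map_iSup _
  simp only [h1]
  rw [lintegral_iSup_directed]
  · refine iSup_le fun F => ?_
    refine (laminar_finite S hS hlam hne hinj hp π μ B hB φ F).trans ?_
    gcongr
    exact ENNReal.sum_le_tsum F
  · intro F
    apply Measurable.aemeasurable
    exact (Finset.measurable_fun_sum _ fun α _ => measurable_const.indicator (hS α)).pow_const _
  · intro F G
    classical
    refine ⟨F ∪ G, fun x => ?_, fun x => ?_⟩
    · exact ENNReal.rpow_le_rpow (Finset.sum_le_sum_of_subset Finset.subset_union_left) hp0.le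
    · exact ENNReal.rpow_le_rpow (Finset.sum_le_sum_of_subset Finset.subset_union_right) hp0.le

end main

end Pool.Agent.Lib.MP_a9eb04
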