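import Pool.Agent.Lib.MP_a9eb04.Example

/-!
# The best constant in the isocapacitary inequality on trees
-/

set_option autoImplicit false

open MeasureTheory
open scoped ENNReal NNReal

namespace Pool.Agent.Lib.MP_a9eb04

theorem isLeast_sharpK (p : ℝ) (hp : 1 < p) :
    IsLeast {K : ℝ≥0∞ | ∀ (T : LFTree) (π : T.E → ℝ≥0) (μ : Measure T.Point),
      T.hardyConst p π μ ≤ K * T.isoConst p π μ}
      (ENNReal.ofReal (p ^ p / (p - 1) ^ (p - 1))) := by
  refine ⟨fun T π μ => T.hardyConst_le hp π μ, fun K hK => ?_⟩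
  calc ENNReal.ofReal (p ^ p / (p - 1) ^ (p - 1))
      ≤ line.hardyConst p (fun _ => 1) (mu p) := hardyConst_line hp
    _ ≤ K * line.isoConst p (fun _ => 1) (mu p) := hK line _ _
    _ ≤ K * 1 := by gcongr; exact isoConst_line hp
    _ = K := mul_one K

end Pool.Agent.Lib.MP_a9eb04
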