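import Pool.Agent.Lib.MP_a9eb04.Defs
import Pool.Agent.Lib.MP_a9eb04.Laminar

/-!
# The successor sets of a tree form a laminar family
-/

set_option autoImplicit false

open MeasureTheory
open scoped ENNReal NNReal

namespace Pool.Agent.Lib.MP_a9eb04

namespace LFTree

variable (T : LFTree)

/-- the path from the pre-root -/
noncomputable def P (x : T.V) : T.G.Walk T.preRoot x :=
  Classical.choose (T.isTree.existsUnique_path T.preRoot x)

variable {T}

lemma P_isPath (x : T.V) : (T.P x).IsPath :=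
  (Classical.choose_spec (T.isTree.existsUnique_path T.preRoot x)).1

lemma P_unique {x : T.V} (w : T.G.Walk T.preRoot x) (hw : w.IsPath) : w = T.P x :=
  (Classical.choose_spec (T.isTree.existsUnique_path T.preRoot x)).2 w hw

lemma mem_geo_vertex {x : T.V} {e : Sym2 T.V} :
    e ∈ T.geo (.vertex x) ↔ e ∈ (T.P x).edges := by
  constructor
  · rintro ⟨w, hw, he⟩
    rwa [P_unique w hw] at he
  · intro he
    exact ⟨_, P_isPath x, he⟩

lemma mem_geo_ray {γ : T.Ray} {e : Sym2 T.V} :
    e ∈ T.geo (.ray γ) ↔ ∃ n, e = s(γ.vert n, γ.vert (n + 1)) := Iff.rfl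

/-- `w` is the far end of the edge `e` -/
def IsTip (e : Sym2 T.V) (w : T.V) : Prop :=
  ∃ (v : T.V) (h : T.G.Adj v w), e = s(v, w) ∧ T.P w = (T.P v).concat h

lemma exists_tip {e : Sym2 T.V} (he : e ∈ T.G.edgeSet) : ∃ w, IsTip e w := by
  induction e using Sym2.ind with
  | _ v w =>
    have hadj : T.G.Adj v w := he
    by_cases hv : v ∈ (T.P w).support
    · exact ⟨w, v, hadj, rfl, T.isTree.isAcyclic.path_concat (P_isPath v) (P_isPath w) hadj hv⟩
    · have hw : w ∈ (T.P v).support :=
        T.isTree.isAcyclic.mem_support_of_ne_mem_support_of_adj_of_isPath (P_isPath v)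
          (P_isPath w) hadj hv
      exact ⟨v, w, hadj.symm, Sym2.eq_swap,
        T.isTree.isAcyclic.path_concat (P_isPath w) (P_isPath v) hadj.symm hw⟩

lemma IsTip.mem {e : Sym2 T.V} {w : T.V} (h : IsTip e w) : e ∈ (T.P w).edges := by
  obtain ⟨v, hadj, he, hP⟩ := h
  rw [hP, SimpleGraph.Walk.edges_concat, he]
  simp

lemma P_edges_subset {w x : T.V} (h : w ∈ (T.P x).support) {e : Sym2 T.V}
    (he : e ∈ (T.P w).edges) : e ∈ (T.P x).edges := by
  obtain ⟨q, r, hq, _, hqr⟩ := (P_isPath x).mem_support_iff_exists_append.1 h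
  rw [hqr, SimpleGraph.Walk.edges_append, P_unique q hq]
  exact List.mem_append_left _ he

lemma IsTip.mem_support {e : Sym2 T.V} {w x : T.V} (h : IsTip e w) (he : e ∈ (T.P x).edges) :
    w ∈ (T.P x).support := by
  obtain ⟨v, hadj, rfl, hP⟩ := h
  exact (T.P x).snd_mem_support_of_mem_edges he

lemma IsTip.unique {e : Sym2 T.V} {w w' : T.V} (h : IsTip e w) (h' : IsTip e w') : w = w' := by
  have h1 := h.mem_support h'.mem
  have h2 := h'.mem_support h.mem
  obtain ⟨q, r, hq, _, hqr⟩ := (P_isPath w').mem_support_iff_exists_append.1 h1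
  obtain ⟨q', r', hq', _, hqr'⟩ := (P_isPath w).mem_support_iff_exists_append.1 h2
  have e1 := congrArg SimpleGraph.Walk.length hqr
  have e2 := congrArg SimpleGraph.Walk.length hqr'
  rw [SimpleGraph.Walk.length_append, P_unique q hq] at e1
  rw [SimpleGraph.Walk.length_append, P_unique q' hq'] at e2
  have h3 : r.length = 0 := by omega
  exact SimpleGraph.Walk.eq_of_length_eq_zero h3

lemma IsTip.inj {e e' : Sym2 T.V} {w : T.V} (h : IsTip e w) (h' : IsTip e' w) : e = e' := by
  obtain ⟨v, hadj, rfl, hP⟩ := h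
  obtain ⟨v', hadj', rfl, hP'⟩ := h'
  have h1 := congrArg SimpleGraph.Walk.penultimate (hP.symm.trans hP')
  rw [SimpleGraph.Walk.penultimate_concat, SimpleGraph.Walk.penultimate_concat] at h1
  rw [h1]

/-- along a ray the canonical paths are obtained by adding the next edge -/
lemma ray_P (γ : T.Ray) (n : ℕ) : ∃ h : T.G.Adj (γ.vert n) (γ.vert (n + 1)),
    T.P (γ.vert (n + 1)) = (T.P (γ.vert n)).concat h ∧ (T.P (γ.vert n)).length = n := by
  have hadj : ∀ n, T.G.Adj (γ.vert n) (γ.vert (n + 1)) := by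
    intro n
    rw [← SimpleGraph.dist_eq_one_iff_adj, γ.geodesic n (n + 1) (Nat.le_succ n)]
    omega
  have hdist : ∀ n, T.G.dist T.preRoot (γ.vert n) = n := by
    intro n
    have := γ.geodesic 0 n (Nat.zero_le n)
    rwa [γ.vert_zero] at this
  have hlen : ∀ n, (T.P (γ.vert n)).length = n := by
    intro n
    obtain ⟨w, hw, hwl⟩ := T.isTree.connected.exists_path_of_dist T.preRoot (γ.vert n)
    rw [← P_unique w hw, hwl, hdist]
  refine ⟨hadj n, ?_, hlen n⟩
  have hnot : γ.vert (n + 1) ∉ (T.P (γ.vert n)).support := by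
    intro hmem
    obtain ⟨q, r, hq, _, hqr⟩ := (P_isPath _).mem_support_iff_exists_append.1 hmem
    have h1 := congrArg SimpleGraph.Walk.length hqr
    rw [SimpleGraph.Walk.length_append, P_unique q hq, hlen, hlen] at h1
    omega
  exact (P_unique _ ((P_isPath _).concat hnot (hadj n))).symm

lemma ray_isTip (γ : T.Ray) (n : ℕ) : IsTip s(γ.vert n, γ.vert (n + 1)) (γ.vert (n + 1)) := by
  obtain ⟨h, hP, _⟩ := ray_P γ n
  exact ⟨_, h, rfl, hP⟩

lemma ray_edges (γ : T.Ray) (n : ℕ) {e : Sym2 T.V} (he : e ∈ (T.P (γ.vert n)).edges) :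
    ∃ k, k < n ∧ e = s(γ.vert k, γ.vert (k + 1)) := by
  induction n with
  | zero =>
    obtain ⟨h, hP, hl⟩ := ray_P γ 0
    have h1 := SimpleGraph.Walk.length_edges (T.P (γ.vert 0))
    rw [hl] at h1
    rw [List.eq_nil_of_length_eq_zero h1] at he
    exact absurd he List.not_mem_nil
  | succ n ih =>
    obtain ⟨h, hP, hl⟩ := ray_P γ n
    rw [hP, SimpleGraph.Walk.edges_concat, List.concat_eq_append, List.mem_append] at he
    rcases he with he | he
    · obtain ⟨k, hk, hek⟩ := ih he
      exact ⟨k, by omega, hek⟩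
    · rw [List.mem_singleton] at he
      exact ⟨n, by omega, he⟩

lemma ray_mono (γ : T.Ray) {m n : ℕ} (hmn : m ≤ n) {e : Sym2 T.V}
    (he : e ∈ (T.P (γ.vert m)).edges) : e ∈ (T.P (γ.vert n)).edges := by
  induction n, hmn using Nat.le_induction with
  | base => exact he
  | succ n _ ih =>
    obtain ⟨h, hP, hl⟩ := ray_P γ n
    rw [hP, SimpleGraph.Walk.edges_concat, List.concat_eq_append, List.mem_append]
    exact Or.inl ih

/-- If `α ∈ [o*, x]` then `[o*, tip α] ⊆ [o*, x]`. -/
lemma geo_tip_subset {e : Sym2 T.V} {w : T.V} (h : IsTip e w) {x : T.Point}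
    (hx : e ∈ T.geo x) {e' : Sym2 T.V} (he' : e' ∈ (T.P w).edges) : e' ∈ T.geo x := by
  cases x with
  | vertex x =>
    rw [mem_geo_vertex] at hx ⊢
    exact P_edges_subset (h.mem_support hx) he'
  | ray γ =>
    obtain ⟨n, rfl⟩ := hx
    have h1 := h.unique (ray_isTip γ n)
    subst h1
    obtain ⟨k, _, hk⟩ := ray_edges γ (n + 1) he'
    exact ⟨k, hk⟩

/-- two edges on the same geodesic are comparable -/
lemma comparable {e e' : Sym2 T.V} {w w' : T.V} (h : IsTip e w) (h' : IsTip e' w')
    {x : T.Point} (hx : e ∈ T.geo x) (hx' : e' ∈ T.geo x) :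
    e ∈ (T.P w').edges ∨ e' ∈ (T.P w).edges := by
  -- reduce to a vertex
  have key : ∀ z : T.V, e ∈ (T.P z).edges → e' ∈ (T.P z).edges →
      e ∈ (T.P w').edges ∨ e' ∈ (T.P w).edges := by
    intro z hz hz'
    have h1 := h.mem_support hz
    have h2 := h'.mem_support hz'
    obtain ⟨q, r, hq, hr, hqr⟩ := (P_isPath z).mem_support_iff_exists_append.1 h1
    have h3 : w' ∈ q.support ∨ w' ∈ r.support := by
      rw [hqr, SimpleGraph.Walk.mem_support_append_iff] at h2
      exact h2
    rcases h3 with h3 | h3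
    · right
      rw [P_unique q hq] at h3
      exact P_edges_subset h3 h'.mem
    · left
      obtain ⟨r1, r2, hr1, _, hrr⟩ := hr.mem_support_iff_exists_append.1 h3
      have h4 : (q.append r1).IsPath := by
        have h5 : T.P z = (q.append r1).append r2 := by
          rw [hqr, hrr, SimpleGraph.Walk.append_assoc]
        have h6 := P_isPath z
        rw [h5] at h6
        exact h6.of_append_left
      have h7 := P_unique _ h4
      rw [← h7, SimpleGraph.Walk.edges_append, P_unique q hq]
      exact List.mem_append_left _ h.mem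
  cases x with
  | vertex z =>
    rw [mem_geo_vertex] at hx hx'
    exact key z hx hx'
  | ray γ =>
    obtain ⟨n, rfl⟩ := hx
    obtain ⟨n', rfl⟩ := hx'
    have h1 := (ray_isTip γ n).mem
    have h2 := (ray_isTip γ n').mem
    exact key (γ.vert (max n n' + 1)) (ray_mono γ (by omega) h1) (ray_mono γ (by omega) h2)

lemma mem_S {α : T.E} {x : T.Point} : x ∈ T.S α ↔ α.1 ∈ T.geo x := Iff.rfl

lemma S_nonempty (α : T.E) : (T.S α).Nonempty := by
  obtain ⟨w, hw⟩ := exists_tip α.2
  exact ⟨.vertex w, mem_geo_vertex.2 hw.mem⟩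

lemma S_laminar (α β : T.E) :
    T.S α ⊆ T.S β ∨ T.S β ⊆ T.S α ∨ Disjoint (T.S α) (T.S β) := by
  by_cases hdis : Disjoint (T.S α) (T.S β)
  · exact Or.inr (Or.inr hdis)
  · obtain ⟨x, hxα, hxβ⟩ := Set.not_disjoint_iff.1 hdis
    obtain ⟨w, hw⟩ := exists_tip α.2
    obtain ⟨w', hw'⟩ := exists_tip β.2
    rcases comparable hw hw' hxα hxβ with h | h
    · right; left
      intro y hy
      exact geo_tip_subset hw' hy h
    · left
      intro y hy
      exact geo_tip_subset hw hy h

lemma S_injective : Function.Injective T.S := by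
  intro α β hαβ
  obtain ⟨w, hw⟩ := exists_tip α.2
  obtain ⟨w', hw'⟩ := exists_tip β.2
  have h1 : Point.vertex w ∈ T.S β := by
    rw [← hαβ]; exact mem_geo_vertex.2 hw.mem
  have h2 : Point.vertex w' ∈ T.S α := by
    rw [hαβ]; exact mem_geo_vertex.2 hw'.mem
  rw [mem_S, mem_geo_vertex] at h1 h2
  have h3 := hw'.mem_support h1
  have h4 := hw.mem_support h2
  obtain ⟨q, r, hq, _, hqr⟩ := (P_isPath w').mem_support_iff_exists_append.1 h4
  obtain ⟨q', r', hq', _, hqr'⟩ := (P_isPath w).mem_support_iff_exists_append.1 h3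
  have e1 := congrArg SimpleGraph.Walk.length hqr
  have e2 := congrArg SimpleGraph.Walk.length hqr'
  rw [SimpleGraph.Walk.length_append, P_unique q hq] at e1
  rw [SimpleGraph.Walk.length_append, P_unique q' hq'] at e2
  have h5 : r.length = 0 := by omega
  have h6 := SimpleGraph.Walk.eq_of_length_eq_zero h5
  subst h6
  exact Subtype.ext (hw.inj hw')

instance : BorelSpace T.Point := ⟨rfl⟩

lemma S_measurable (α : T.E) : MeasurableSet (T.S α) := by
  apply IsOpen.measurableSet
  exact TopologicalSpace.isOpen_generateFrom_of_mem (Or.inl ⟨α, rfl⟩)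

lemma vertex_measurable (x : T.V) : MeasurableSet ({Point.vertex x} : Set T.Point) := by
  apply IsOpen.measurableSet
  exact TopologicalSpace.isOpen_generateFrom_of_mem (Or.inr ⟨x, rfl⟩)

instance : Countable T.E := by
  have := T.countable_V
  have h : Countable (Sym2 T.V) := inferInstance
  exact Subtype.countable

lemma hardyOp_eq (φ : T.E → ℝ≥0) (x : T.Point) : T.hardyOp φ x = opI T.S φ x := by
  unfold hardyOp opI
  rw [tsum_subtype {α : T.E | α.1 ∈ T.geo x} (fun α => (φ α : ℝ≥0∞))]
  refine tsum_congr fun α => ?_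
  by_cases h : x ∈ T.S α
  · rw [Set.indicator_of_mem h, Set.indicator_of_mem (show α ∈ {α : T.E | α.1 ∈ T.geo x} from h)]
  · rw [Set.indicator_of_notMem h,
      Set.indicator_of_notMem (show α ∉ {α : T.E | α.1 ∈ T.geo x} from h)]

lemma energy_eq (p : ℝ) (π φ : T.E → ℝ≥0) : T.energy p π φ = energyE p π φ := rfl

/-- Upper bound for the Hardy constant. -/
theorem hardyConst_le (T : LFTree) {p : ℝ} (hp : 1 < p) (π : T.E → ℝ≥0)
    (μ : Measure T.Point) :
    T.hardyConst p π μ ≤ ENNReal.ofReal (sharpK p) * T.isoConst p π μ := by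
  set B := T.isoConst p π μ with hB
  by_cases hBt : B = ∞
  · rw [hBt, ENNReal.mul_top]
    · exact le_top
    · exact (ENNReal.ofReal_pos.2 (sharpK_pos hp)).ne'
  · refine sInf_le ?_
    intro φ
    simp only [hardyOp_eq]
    refine laminar_hardy T.S S_measurable S_laminar S_nonempty S_injective hp π μ B ?_ φ
    intro F hF ψ hψ hfin
    rcases F.eq_empty_or_nonempty with rfl | hne
    · simp
    · set n := F.card with hn
      have hn1 : 1 ≤ n := Finset.card_pos.2 hne
      let α : Fin n → T.E := fun i => (F.equivFin.symm i).1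
      have hαinj : Function.Injective α := fun i j hij => by
        have := Subtype.ext (a1 := F.equivFin.symm i) (a2 := F.equivFin.symm j) hij
        exact F.equivFin.symm.injective this
      have hdisj : Pairwise fun i j => Disjoint (T.S (α i)) (T.S (α j)) := by
        intro i j hij
        exact hF (F.equivFin.symm i).2 (F.equivFin.symm j).2 (fun h => hij (hαinj h))
      have hsum : ∑ i, μ (T.S (α i)) = ∑ a ∈ F, μ (T.S a) := by
        rw [← Finset.sum_coe_sort F]
        exact Equiv.sum_comp F.equivFin.symm (fun a : F => μ (T.S a))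
      have hUnion : ⋃ i, T.S (α i) = ⋃ a ∈ F, T.S a := by
        ext x
        simp only [Set.mem_iUnion]
        constructor
        · rintro ⟨i, hi⟩
          exact ⟨_, (F.equivFin.symm i).2, hi⟩
        · rintro ⟨a, ha, hx⟩
          refine ⟨F.equivFin ⟨a, ha⟩, ?_⟩
          simpa [α] using hx
      have h1 : (∑ i, μ (T.S (α i))) / T.capacity p π (⋃ i, T.S (α i)) ≤ B := by
        rw [hB]
        unfold isoConst
        exact le_iSup_of_le n (le_iSup_of_le hn1 (le_iSup_of_le α (le_iSup_of_le hdisj le_rfl)))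
      have hcap : T.capacity p π (⋃ i, T.S (α i)) ≤ T.energy p π ψ := by
        unfold capacity
        refine iInf_le_of_le ψ (iInf_le_of_le ?_ le_rfl)
        intro x hx
        rw [hardyOp_eq]
        rw [hUnion] at hx
        exact hψ x hx
      have hcapfin : T.capacity p π (⋃ i, T.S (α i)) ≠ ∞ := ne_top_of_le_ne_top hfin hcap
      rw [ENNReal.div_le_iff_le_mul (Or.inr hBt) (Or.inl hcapfin)] at h1
      rw [← hsum]
      exact h1.trans (mul_le_mul_right hcap B)

end LFTree

end Pool.Agent.Lib.MP_a9eb04
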